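import Mathlib

/-!
# Cohomology of `X × E ^ n` for a log Tate curve `E`, in Kunneth coordinates

`H^*(E)` has the basis `e_0 = 1`, `e_1`, `e_2`, `e_3 = η`, of degrees `0, 1, 1, 2`; Frobenius acts by
`1, 1, q, q` and the monodromy operator by `N e_2 = e_1` and `N e_i = 0` otherwise.
A class on `X × E ^ n` is a function `c` on words of length `n` in the letters `0, 1, 2, 3`:
it stands for `∑ c w ⊗ e_{w_1} ⊗ ... ⊗ e_{w_n}`.
-/

set_option autoImplicit false

namespace Pool.Agent.R277.LT

universe u v

/-- Words in the four basis vectors `1, e_1, e_2, η` of `H^*(E)`. -/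
abbrev Word := List (Fin 4)

/-- The cohomological degrees of `1, e_1, e_2, η`. -/
def letterDeg : Fin 4 → ℤ := ![0, 1, 1, 2]

/-- Frobenius multiplies `1, e_1, e_2, η` by `q` to the power `0, 0, 1, 1`. -/
def letterWt : Fin 4 → ℤ := ![0, 0, 1, 1]

/-- The degree of `e_w`. -/
def wordDeg (w : Word) : ℤ := (w.map letterDeg).sum

/-- Frobenius multiplies `e_w` by `q ^ wordWt w`. -/
def wordWt (w : Word) : ℤ := (w.map letterWt).sum

variable {K : Type u} [Field K] {H : Type v} [AddCommGroup H] [Module K H]

/-- The monodromy operator on the cohomology of `X × E ^ n` (a derivation), in Kunneth coordinates: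
`N e_2 = e_1`, so the coefficient of `N c` at the word `w` is `N (c w)` plus the sum of the `c w'`,
where `w'` arises from `w` by changing one letter `1` to `2`. -/
def monodromy (N : H →ₗ[K] H) : (Word → H) →ₗ[K] (Word → H) where
  toFun c := fun w => N (c w) +
    ∑ i ∈ Finset.range w.length, if w[i]? = some 1 then c (w.set i 2) else 0
  map_add' c c' := by
    funext w
    have : ∀ i, (if w[i]? = some 1 then (c + c') (w.set i 2) else 0)
        = (if w[i]? = some 1 then c (w.set i 2) else 0)
          + (if w[i]? = some 1 then c' (w.set i 2) else 0) := by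
      intro i; split_ifs <;> simp
    simp only [Pi.add_apply, map_add]
    simp only [Pi.add_apply] at this
    simp only [this, Finset.sum_add_distrib]
    abel
  map_smul' a c := by
    funext w
    have : ∀ i, (if w[i]? = some 1 then (a • c) (w.set i 2) else 0)
        = a • (if w[i]? = some 1 then c (w.set i 2) else 0) := by
      intro i; split_ifs <;> simp
    simp only [Pi.smul_apply, map_smul, RingHom.id_apply]
    simp only [Pi.smul_apply] at this
    simp only [this, ← Finset.smul_sum, smul_add]

/-- The coefficients at the words ending with `a`. -/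
def part (a : Fin 4) : (Word → H) →ₗ[K] (Word → H) where
  toFun c := fun u => c (u ++ [a])
  map_add' _ _ := rfl
  map_smul' _ _ := rfl

lemma part_apply (a : Fin 4) (c : Word → H) (u : Word) :
    part (K := K) a c u = c (u ++ [a]) := rfl

lemma wordDeg_append (u v : Word) : wordDeg (u ++ v) = wordDeg u + wordDeg v := by
  simp [wordDeg]

lemma wordWt_append (u v : Word) : wordWt (u ++ v) = wordWt u + wordWt v := by
  simp [wordWt]

lemma part_monodromy (N : H →ₗ[K] H) (a : Fin 4) (c : Word → H) :
    part (K := K) a (monodromy N c) = monodromy N (part (K := K) a c)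
      + (if a = 1 then part (K := K) 2 c else 0) := by
  funext u
  have h1 : ∀ i ∈ Finset.range u.length,
      (if (u ++ [a])[i]? = some 1 then c ((u ++ [a]).set i 2) else 0)
        = (if u[i]? = some 1 then c (u.set i 2 ++ [a]) else 0) := by
    intro i hi
    rw [Finset.mem_range] at hi
    rw [List.getElem?_append_left hi, List.set_append_left _ _ hi]
  simp only [part_apply, monodromy, LinearMap.coe_mk, AddHom.coe_mk, List.length_append,
    List.length_singleton, Finset.sum_range_succ, Pi.add_apply]
  rw [Finset.sum_congr rfl h1]
  have h2 : (u ++ [a])[u.length]? = some a := by simp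
  have h3 : (u ++ [a]).set u.length 2 = u ++ [2] := by simp
  rw [h2, h3]
  by_cases ha : a = 1
  · subst ha
    simp [part_apply, add_assoc]
  · have : ¬ (some a = some (1 : Fin 4)) := by simpa using ha
    simp [ha]

lemma monodromy_pow_succ (N : H →ₗ[K] H) (k : ℕ) (c : Word → H) :
    monodromy N ((monodromy N ^ k) c) = (monodromy N ^ (k + 1)) c := by
  rw [pow_succ', Module.End.mul_apply]

lemma part_two_monodromy_pow (N : H →ₗ[K] H) (a : Fin 4) (ha : a ≠ 1) (k : ℕ) (c : Word → H) :
    part (K := K) a ((monodromy N ^ k) c) = (monodromy N ^ k) (part (K := K) a c) := by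
  induction k with
  | zero => simp
  | succ k ih =>
    rw [pow_succ', Module.End.mul_apply, part_monodromy, if_neg ha, add_zero, ih,
      Module.End.mul_apply]

lemma part_one_monodromy_pow (N : H →ₗ[K] H) (k : ℕ) (c : Word → H) :
    part (K := K) 1 ((monodromy N ^ (k + 1)) c) = (monodromy N ^ (k + 1)) (part (K := K) 1 c)
      + ((k : K) + 1) • (monodromy N ^ k) (part (K := K) 2 c) := by
  induction k with
  | zero => simp [part_monodromy]
  | succ k ih =>
    rw [← monodromy_pow_succ N (k + 1) c, part_monodromy, if_pos rfl, ih, map_add, map_smul,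
      part_two_monodromy_pow N 2 (by decide), monodromy_pow_succ, monodromy_pow_succ, add_assoc]
    congr 1
    push_cast
    module

/-- The value of `N c` at a word depends only on the values of `c` at words of the same length. -/
lemma monodromy_congr (N : H →ₗ[K] H) {n : ℕ} {c c' : Word → H}
    (h : ∀ w : Word, w.length = n → c w = c' w) :
    ∀ w : Word, w.length = n → monodromy N c w = monodromy N c' w := by
  intro w hw
  simp only [monodromy, LinearMap.coe_mk, AddHom.coe_mk]
  rw [h w hw]
  congr 1
  refine Finset.sum_congr rfl fun i _ => ?_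
  rw [h (w.set i 2) (by simpa using hw)]

lemma monodromy_pow_congr (N : H →ₗ[K] H) {n : ℕ} {c c' : Word → H}
    (h : ∀ w : Word, w.length = n → c w = c' w) (k : ℕ) :
    ∀ w : Word, w.length = n → (monodromy N ^ k) c w = (monodromy N ^ k) c' w := by
  induction k with
  | zero => simpa using h
  | succ k ih =>
    intro w hw
    rw [pow_succ', Module.End.mul_apply, Module.End.mul_apply]
    exact monodromy_congr N ih w hw

/-- The part of `H^j` on which every `g` acts by `χ g ^ s`. -/
def eig {Γ : Type} (gr : ℤ → Submodule K H) (F : Γ → H →ₗ[K] H) (χ : Γ → K) (j s : ℤ) :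
    Submodule K H where
  carrier := {x | x ∈ gr j ∧ ∀ g, F g x = χ g ^ s • x}
  add_mem' := by
    rintro x y ⟨hx, hx'⟩ ⟨hy, hy'⟩
    exact ⟨add_mem hx hy, fun g => by rw [map_add, hx', hy', smul_add]⟩
  zero_mem' := ⟨zero_mem _, fun g => by simp⟩
  smul_mem' := by
    rintro a x ⟨hx, hx'⟩
    exact ⟨Submodule.smul_mem _ _ hx, fun g => by rw [map_smul, hx', smul_comm]⟩

/-- `c` is an element of `H^m(X × E ^ n)(r)` invariant under the log fundamental group, where the
submodule `T j s` stands for the part of `H^j(X)` on which the Galois group acts as on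
`Q_ℓ(-s)`. -/
def IsInv (T : ℤ → ℤ → Submodule K H) (N : H →ₗ[K] H) (n : ℕ) (m r : ℤ) (c : Word → H) : Prop :=
  ∀ w : Word, w.length = n → c w ∈ T (m - wordDeg w) (r - wordWt w) ∧ monodromy N c w = 0

lemma exists_snoc {n : ℕ} {w : Word} (hw : w.length = n + 1) :
    ∃ u : Word, ∃ a : Fin 4, u.length = n ∧ w = u ++ [a] := by
  have hne : w ≠ [] := by
    intro h; simp [h] at hw
  refine ⟨w.dropLast, w.getLast hne, by simp [hw], ?_⟩
  exact (List.dropLast_append_getLast hne).symm

/-- If powers of `N` are injective in the expected range on the cohomology of `X`, then the same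
holds for `X × E ^ n`. -/
theorem neg_all [CharZero K] (T : ℤ → ℤ → Submodule K H) (N : H →ₗ[K] H)
    (h0 : ∀ (k : ℕ) (j s : ℤ), (k : ℤ) ≤ 2 * s - j → ∀ x ∈ T j s, (N ^ k) x = 0 → x = 0)
    (n : ℕ) :
    ∀ (k : ℕ) (j s : ℤ), (k : ℤ) ≤ 2 * s - j → ∀ c : Word → H,
      (∀ w : Word, w.length = n → c w ∈ T (j - wordDeg w) (s - wordWt w)) →
      (∀ w : Word, w.length = n → (monodromy N ^ k) c w = 0) →
      ∀ w : Word, w.length = n → c w = 0 := by
  induction n with
  | zero =>
    intro k j s hk c hc hN w hw
    have hw' : w = [] := List.length_eq_zero_iff.mp hw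
    subst hw'
    have key : ∀ k : ℕ, ∀ c : Word → H, (monodromy N ^ k) c [] = (N ^ k) (c []) := by
      intro k
      induction k with
      | zero => intro c; simp
      | succ k ih =>
        intro c
        rw [pow_succ', Module.End.mul_apply, pow_succ', Module.End.mul_apply]
        rw [← ih c]
        simp [monodromy]
    have h1 := hc [] rfl
    simp only [wordDeg, wordWt, List.map_nil, List.sum_nil, sub_zero] at h1
    refine h0 k j s hk _ h1 ?_
    rw [← key]
    exact hN [] rfl
  | succ n ih =>
    intro k j s hk c hc hN
    have hpart : ∀ a : Fin 4, ∀ w : Word, w.length = n →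
        part (K := K) a c w ∈ T (j - letterDeg a - wordDeg w) (s - letterWt a - wordWt w) := by
      intro a w hw
      have := hc (w ++ [a]) (by simp [hw])
      rw [wordDeg_append, wordWt_append] at this
      have e1 : j - (wordDeg w + wordDeg [a]) = j - letterDeg a - wordDeg w := by
        simp [wordDeg]; ring
      have e2 : s - (wordWt w + wordWt [a]) = s - letterWt a - wordWt w := by
        simp [wordWt]; ring
      rwa [e1, e2] at this
    have hNpart : ∀ a : Fin 4, ∀ w : Word, w.length = n →
        part (K := K) a ((monodromy N ^ k) c) w = 0 := by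
      intro a w hw
      exact hN (w ++ [a]) (by simp [hw])
    -- the letters `0` and `3`
    have hz : ∀ a : Fin 4, a ≠ 1 → a ≠ 2 → ∀ w : Word, w.length = n →
        part (K := K) a c w = 0 := by
      intro a ha1 ha2
      refine ih k (j - letterDeg a) (s - letterWt a) ?_ _ (hpart a) ?_
      · have : 2 * (s - letterWt a) - (j - letterDeg a) = 2 * s - j := by
          fin_cases a
          · simp [letterDeg, letterWt]
          · simp at ha1
          · simp at ha2
          · simp [letterDeg, letterWt]; ring
        rw [this]; exact hk
      · intro w hw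
        rw [← part_two_monodromy_pow N a ha1]
        exact hNpart a w hw
    -- the letter `2`: `N ^ k` kills it
    have h2N : ∀ w : Word, w.length = n → (monodromy N ^ k) (part (K := K) 2 c) w = 0 := by
      intro w hw
      rw [← part_two_monodromy_pow N 2 (by decide)]
      exact hNpart 2 w hw
    -- the letter `1`
    have hz12 : (∀ w : Word, w.length = n → part (K := K) 1 c w = 0) ∧
        (∀ w : Word, w.length = n → part (K := K) 2 c w = 0) := by
      rcases Nat.eq_zero_or_pos k with hk0 | hk0
      · subst hk0
        exact ⟨fun w hw => by simpa using hNpart 1 w hw, fun w hw => by simpa using h2N w hw⟩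
      · obtain ⟨k, rfl⟩ : ∃ k', k = k' + 1 := ⟨k - 1, by omega⟩
        have h1N : ∀ w : Word, w.length = n → (monodromy N ^ (k + 1)) (part (K := K) 1 c) w
            + ((k : K) + 1) • (monodromy N ^ k) (part (K := K) 2 c) w = 0 := by
          intro w hw
          have := hNpart 1 w hw
          rw [part_one_monodromy_pow] at this
          simpa using this
        have h1 : ∀ w : Word, w.length = n → part (K := K) 1 c w = 0 := by
          refine ih (k + 2) (j - letterDeg 1) (s - letterWt 1) ?_ _ (hpart 1) ?_
          · have e : 2 * (s - letterWt 1) - (j - letterDeg 1) = 2 * s - j + 1 := by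
              simp [letterDeg, letterWt]; ring
            rw [e]; push_cast at hk ⊢; linarith
          · intro w hw
            have h3 : (monodromy N ^ (k + 2)) (part (K := K) 1 c) w =
                monodromy N ((monodromy N ^ (k + 1)) (part (K := K) 1 c)
                  + ((k : K) + 1) • (monodromy N ^ k) (part (K := K) 2 c)) w := by
              rw [map_add, map_smul, monodromy_pow_succ, monodromy_pow_succ,
                Pi.add_apply, Pi.smul_apply, h2N w hw, smul_zero, add_zero]
            rw [h3]
            have := monodromy_congr N (n := n)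
              (c := (monodromy N ^ (k + 1)) (part (K := K) 1 c)
                  + ((k : K) + 1) • (monodromy N ^ k) (part (K := K) 2 c)) (c' := 0)
              (fun w hw => by simpa using h1N w hw) w hw
            rw [this]; simp
        refine ⟨h1, ?_⟩
        have h1' : ∀ w : Word, w.length = n →
            (monodromy N ^ (k + 1)) (part (K := K) 1 c) w = 0 := by
          intro w hw
          have := monodromy_pow_congr N (n := n) (c := part (K := K) 1 c) (c' := 0)
            (fun w hw => by simpa using h1 w hw) (k + 1) w hw
          rw [this]; simp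
        have h2' : ∀ w : Word, w.length = n →
            (monodromy N ^ k) (part (K := K) 2 c) w = 0 := by
          intro w hw
          have := h1N w hw
          rw [h1' w hw, zero_add] at this
          rcases smul_eq_zero.mp this with h | h
          · exact absurd h (Nat.cast_add_one_ne_zero k)
          · exact h
        refine ih k (j - letterDeg 2) (s - letterWt 2) ?_ _ (hpart 2) h2'
        have e : 2 * (s - letterWt 2) - (j - letterDeg 2) = 2 * s - j - 1 := by
          simp [letterDeg, letterWt]; ring
        rw [e]; push_cast at hk ⊢; linarith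
    intro w hw
    obtain ⟨u, a, hu, rfl⟩ := exists_snoc hw
    change part (K := K) a c u = 0
    by_cases ha1 : a = 1
    · subst ha1; exact hz12.1 u hu
    · by_cases ha2 : a = 2
      · subst ha2; exact hz12.2 u hu
      · exact hz a ha1 ha2 u hu

end Pool.Agent.R277.LT
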