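import Pool.Agent.R277.LT.WMC

/-!
# The monodromy-weight conjecture and invariant Frobenius eigenvectors
-/

set_option autoImplicit false

namespace Pool.Agent.R277.LT.Crit

universe u v w

open Pool.Agent.R277.LT.WMC

variable {K : Type u} [Field K] {V : Type v} [AddCommGroup V] [Module K V]

/-- `α` is a `q`-Weil number of weight `w`. -/
def IsWeilNumber (q : ℕ) (w : ℤ) (α : K) : Prop :=
  α ≠ 0 ∧ ∀ ι : K →+* ℂ, ‖ι α‖ = (q : ℝ) ^ ((w : ℝ) / 2)

/-- The monodromy-weight conjecture for `V = H^i`: for each Weil number `α` of weight `i + e` the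
operator `N ^ e` is a bijection from the generalized eigenspace of `F` for `α` onto the generalized
eigenspace for `α / q ^ e` (of weight `i - e`). -/
def WeightMonodromy (F N : Module.End K V) (q : ℕ) (i : ℤ) : Prop :=
  ∀ (α : K) (e : ℕ), IsWeilNumber q (i + e) α →
    (∀ x ∈ F.maxGenEigenspace α, (N ^ e) x = 0 → x = 0) ∧
    (∀ y ∈ F.maxGenEigenspace (α / (q : K) ^ e), ∃ x ∈ F.maxGenEigenspace α, (N ^ e) x = y)

/-- The criterion for `V = H^i`: each eigenvector of `F` killed by `N`, with an eigenvalue of weight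
`i - e ≤ i`, is the image under `N ^ e` of an eigenvector of `F`. -/
def InvariantsLift (F N : Module.End K V) (q : ℕ) (i : ℤ) : Prop :=
  ∀ (β : K) (e : ℕ), IsWeilNumber q (i - e) β → ∀ x : V, F x = β • x → N x = 0 →
    ∃ (y : V) (γ : K), F y = γ • y ∧ (N ^ e) y = x

lemma IsWeilNumber.mul_zpow {q : ℕ} (hq : 1 < q) [CharZero K] {w : ℤ} {α : K}
    (h : IsWeilNumber q w α) (r : ℤ) : IsWeilNumber q (w + 2 * r) (α * (q : K) ^ r) := by
  have hq0 : (q : K) ≠ 0 := by
    have : q ≠ 0 := by omega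
    exact_mod_cast this
  refine ⟨mul_ne_zero h.1 (zpow_ne_zero _ hq0), fun ι => ?_⟩
  have hqr : (0 : ℝ) < q := by exact_mod_cast (by omega : 0 < q)
  rw [map_mul, norm_mul, h.2 ι, map_zpow₀, map_natCast, norm_zpow, Complex.norm_natCast,
    ← Real.rpow_intCast, ← Real.rpow_add hqr]
  congr 1
  push_cast
  ring

lemma IsWeilNumber.inv {q : ℕ} (hq : 1 < q) {w : ℤ} {α : K} (h : IsWeilNumber q w α) :
    IsWeilNumber q (-w) α⁻¹ := by
  refine ⟨inv_ne_zero h.1, fun ι => ?_⟩
  have hqr : (0 : ℝ) < q := by exact_mod_cast (by omega : 0 < q)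
  rw [map_inv₀, norm_inv, h.2 ι, ← Real.rpow_neg hqr.le]
  congr 1
  push_cast
  ring

lemma zpow_inj' [CharZero K] {q : ℕ} (hq : 1 < q) : Function.Injective fun a : ℤ => (q : K) ^ a := by
  intro a b hab
  have h1 : (((q : ℚ) ^ a : ℚ) : K) = (((q : ℚ) ^ b : ℚ) : K) := by
    push_cast
    exact hab
  have h2 : (q : ℚ) ^ a = (q : ℚ) ^ b := Rat.cast_injective h1
  exact zpow_right_injective₀ (by exact_mod_cast (by omega : 0 < q)) (by
    intro h; have : q = 1 := by exact_mod_cast h
    omega) h2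

/-- The criterion gives the property used in the abstract theorem, for `α⁻¹ F`. -/
lemma evalSurj_of_lift [CharZero K] {F N : Module.End K V} {q : ℕ} (hq : 1 < q)
    (hNF : ∀ x, N (F x) = (q : K) • F (N x)) {i : ℤ} (h : InvariantsLift F N q i)
    {α : K} {w : ℤ} (hα : IsWeilNumber q w α) :
    EvalSurj (α⁻¹ • F) N (q : K) (i - w) := by
  intro r e hie x hx hN
  by_cases hx0 : x = 0
  · exact ⟨0, by rw [map_zero, hx0], by simp⟩
  have hq0 : (q : K) ≠ 0 := by
    have : q ≠ 0 := by omega
    exact_mod_cast this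
  have hFx : F x = (α * (q : K) ^ r) • x := by
    rw [LinearMap.smul_apply] at hx
    rw [mul_smul, ← hx, smul_smul, mul_inv_cancel₀ hα.1, one_smul]
  have hw : IsWeilNumber q (i - e) (α * (q : K) ^ r) := by
    have := hα.mul_zpow hq r
    have e1 : w + 2 * r = i - e := by linarith
    rwa [e1] at this
  obtain ⟨y, γ, hy, hyx⟩ := h _ e hw x hFx hN
  refine ⟨y, hyx, ?_⟩
  -- the eigenvalue of `y`
  have key : ∀ (e : ℕ) (z : V), (N ^ e) (F z) = (q : K) ^ e • F ((N ^ e) z) := by
    intro e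
    induction e with
    | zero => intro z; simp
    | succ e ih =>
      intro z
      rw [pow_succ' N, Module.End.mul_apply, ih, map_smul, hNF, smul_smul, ← pow_succ,
        Module.End.mul_apply]
  have h1 := key e y
  rw [hy, map_smul, hyx, hFx, smul_smul] at h1
  have h2 : γ = (q : K) ^ e * (α * (q : K) ^ r) := by
    have h3 : (γ - (q : K) ^ e * (α * (q : K) ^ r)) • x = 0 := by rw [sub_smul, h1, sub_self]
    rcases smul_eq_zero.mp h3 with h4 | h4
    · exact sub_eq_zero.mp h4
    · exact absurd h4 hx0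
  rw [LinearMap.smul_apply, hy, smul_smul, h2]
  congr 1
  have hα0 := hα.1
  rw [zpow_add₀ hq0, zpow_natCast]
  field_simp

/-- The data: `V = H^i(X)` and `V' = H^{2 d - i}(X)` for a log scheme `X` of dimension `d` over a
standard log point over a field with `q` elements, with Frobenius `F`, monodromy `N` and Poincare
duality. -/
structure LogCohomology (K : Type u) [Field K] (q : ℕ) (d : ℤ) where
  V : Type v
  V' : Type w
  [grp : AddCommGroup V]
  [grp' : AddCommGroup V']
  [mod : Module K V]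
  [mod' : Module K V']
  [fin : FiniteDimensional K V]
  [fin' : FiniteDimensional K V']
  F : Module.End K V
  N : Module.End K V
  F' : Module.End K V'
  N' : Module.End K V'
  N_F : ∀ x, N (F x) = (q : K) • F (N x)
  N_F' : ∀ x, N' (F' x) = (q : K) • F' (N' x)
  /-- the cup product with values in `H^{2 d}(X) → K(-d)` -/
  pair : V →ₗ[K] V' →ₗ[K] K
  pair_F : ∀ x y, pair (F x) (F' y) = (q : K) ^ d * pair x y
  pair_N : ∀ x y, pair (N x) y = -pair x (N' y)
  left : ∀ x, (∀ y, pair x y = 0) → x = 0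
  right : ∀ y, (∀ x, pair x y = 0) → y = 0

attribute [instance] LogCohomology.grp LogCohomology.grp' LogCohomology.mod LogCohomology.mod'
  LogCohomology.fin LogCohomology.fin'

lemma LogCohomology.weight [CharZero K] {q : ℕ} (hq : 1 < q) {d : ℤ}
    (X : LogCohomology.{u, v, w} K q d) {i : ℤ} (h : InvariantsLift X.F X.N q i)
    (h' : InvariantsLift X.F' X.N' q (2 * d - i)) : WeightMonodromy X.F X.N q i := by
  intro α e hα
  have hq0 : (q : K) ≠ 0 := by
    have : q ≠ 0 := by omega
    exact_mod_cast this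
  have hE := evalSurj_of_lift hq X.N_F h hα
  have hE' := evalSurj_of_lift hq X.N_F' h' (hα.inv hq)
  have e1 : 2 * d - i - -(i + (e : ℤ)) = 2 * d - (i - (i + e)) := by ring
  rw [e1, inv_inv] at hE'
  have hD : Duality (α⁻¹ • X.F) X.N (α • X.F') X.N' (q : K) d X.pair := by
    refine ⟨fun x y => ?_, X.pair_N, X.left, X.right⟩
    rw [LinearMap.smul_apply, LinearMap.smul_apply, map_smul, map_smul, LinearMap.smul_apply,
      X.pair_F, smul_eq_mul, smul_eq_mul, ← mul_assoc, mul_inv_cancel₀ hα.1, one_mul]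
  have hNF : ∀ x, X.N ((α⁻¹ • X.F) x) = (q : K) • (α⁻¹ • X.F) (X.N x) := by
    intro x
    rw [LinearMap.smul_apply, LinearMap.smul_apply, map_smul, X.N_F, smul_comm]
  have hNF' : ∀ x, X.N' ((α • X.F') x) = (q : K) • (α • X.F') (X.N' x) := by
    intro x
    rw [LinearMap.smul_apply, LinearMap.smul_apply, map_smul, X.N_F', smul_comm]
  have hB := bij_of_evalSurj hD (zpow_inj' hq) hq0 hNF hNF' hE hE' e 0 (by ring)
  -- translate the generalized eigenspaces
  have key : ∀ (b : ℤ) (x : X.V), x ∈ G (α⁻¹ • X.F) (q : K) b ↔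
      x ∈ X.F.maxGenEigenspace (α * (q : K) ^ b) := by
    intro b x
    rw [mem_G, Module.End.mem_maxGenEigenspace]
    have e2 : U (α⁻¹ • X.F) (q : K) b
        = α⁻¹ • (X.F - (α * (q : K) ^ b) • (1 : Module.End K X.V)) := by
      unfold U
      rw [smul_sub, smul_smul, ← mul_assoc, inv_mul_cancel₀ hα.1, one_mul]
    have e3 : ∀ k : ℕ, (U (α⁻¹ • X.F) (q : K) b) ^ k
        = (α⁻¹) ^ k • (X.F - (α * (q : K) ^ b) • (1 : Module.End K X.V)) ^ k := by
      intro k
      rw [e2, smul_pow]
    constructor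
    · rintro ⟨k, hk⟩
      refine ⟨k, ?_⟩
      rw [e3, LinearMap.smul_apply] at hk
      rcases smul_eq_zero.mp hk with h1 | h1
      · exact absurd h1 (pow_ne_zero _ (inv_ne_zero hα.1))
      · exact h1
    · rintro ⟨k, hk⟩
      refine ⟨k, ?_⟩
      rw [e3, LinearMap.smul_apply, hk, smul_zero]
  constructor
  · intro x hx hN
    refine hB.1 x ((key 0 x).mpr ?_) hN
    rwa [zpow_zero, mul_one]
  · intro y hy
    obtain ⟨x, hx, hxy⟩ := hB.2 y ((key _ y).mpr (by
      have e4 : α * (q : K) ^ ((0 : ℤ) - e) = α / (q : K) ^ e := by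
        rw [zero_sub, zpow_neg, zpow_natCast, div_eq_mul_inv]
      rwa [e4]))
    refine ⟨x, ?_, hxy⟩
    have := (key 0 x).mp hx
    rwa [zpow_zero, mul_one] at this

/-- Flipped data. -/
def LogCohomology.flip {q : ℕ} {d : ℤ} (X : LogCohomology.{u, v, w} K q d) :
    LogCohomology.{u, w, v} K q d where
  V := X.V'
  V' := X.V
  F := X.F'
  N := X.N'
  F' := X.F
  N' := X.N
  N_F := X.N_F'
  N_F' := X.N_F
  pair := X.pair.flip
  pair_F x y := X.pair_F y x
  pair_N x y := by
    have := X.pair_N y x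
    simp only [LinearMap.flip_apply]
    rw [this, neg_neg]
  left := X.right
  right := X.left

/-- The converse. -/
lemma lift_of_weight [CharZero K] {F N : Module.End K V} {q : ℕ} (hq : 1 < q)
    (hNF : ∀ x, N (F x) = (q : K) • F (N x)) {i : ℤ} (h : WeightMonodromy F N q i) :
    InvariantsLift F N q i := by
  intro β e hβ x hx hN
  have hq0 : (q : K) ≠ 0 := by
    have : q ≠ 0 := by omega
    exact_mod_cast this
  have hw : IsWeilNumber q (i + e) (β * (q : K) ^ (e : ℤ)) := by
    have := hβ.mul_zpow hq e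
    have e1 : i - (e : ℤ) + 2 * e = i + e := by ring
    rwa [e1] at this
  have e2 : β * (q : K) ^ (e : ℤ) / (q : K) ^ e = β := by
    rw [zpow_natCast, mul_div_assoc, div_self (pow_ne_zero _ hq0), mul_one]
  obtain ⟨hinj, hsurj⟩ := h _ e hw
  rw [e2] at hsurj
  obtain ⟨y, hy, hyx⟩ := hsurj x (by
    rw [Module.End.mem_maxGenEigenspace]
    refine ⟨1, ?_⟩
    rw [pow_one, LinearMap.sub_apply, LinearMap.smul_apply, Module.End.one_apply, hx, sub_self])
  refine ⟨y, β * (q : K) ^ (e : ℤ), ?_, hyx⟩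
  rw [← sub_eq_zero]
  refine hinj _ ?_ ?_
  · rw [Module.End.mem_maxGenEigenspace] at hy ⊢
    obtain ⟨k, hk⟩ := hy
    refine ⟨k, ?_⟩
    have e3 : F y - (β * (q : K) ^ (e : ℤ)) • y
        = (F - (β * (q : K) ^ (e : ℤ)) • (1 : Module.End K V)) y := by
      rw [LinearMap.sub_apply, LinearMap.smul_apply, Module.End.one_apply]
    rw [e3, ← Module.End.mul_apply, ← pow_succ, pow_succ', Module.End.mul_apply, hk, map_zero]
  · have key : ∀ (e : ℕ) (z : V), (N ^ e) (F z) = (q : K) ^ e • F ((N ^ e) z) := by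
      intro e
      induction e with
      | zero => intro z; simp
      | succ e ih =>
        intro z
        rw [pow_succ' N, Module.End.mul_apply, ih, map_smul, hNF, smul_smul, ← pow_succ,
          Module.End.mul_apply]
    rw [map_sub, key, map_smul, hyx, hx, smul_smul, zpow_natCast, mul_comm, sub_self]

end Pool.Agent.R277.LT.Crit
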