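import Pool.Agent.R277.LT.Surj

/-!
# Algebraic classes on `X × E ^ n`
-/

set_option autoImplicit false

namespace Pool.Agent.R277.LT

universe u v

variable {K : Type u} [Field K] {H : Type v} [AddCommGroup H] [Module K H]

/-- Pullback along the projection `X × E ^ (n + 1) → X × E ^ n` forgetting the factor number `p`,
followed by multiplication with the class `e_a` (`a = 0` or `a = 3`) of this factor. -/
def insertAt (p : ℕ) (a : Fin 4) (c : Word → H) : Word → H :=
  fun w => if w[p]? = some a then c (w.eraseIdx p) else 0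

/-- Pullback along the projection `X × E ^ (n + 2) → X × E ^ n` forgetting the factors number `p` and
`p + 1`, followed by multiplication with the class `e_1 ⊗ e_2 - e_2 ⊗ e_1` of these two factors,
which is (up to a scalar) the `H^1 ⊗ H^1`-component of the class of the diagonal of `E × E`. -/
def insertDiag (p : ℕ) (c : Word → H) : Word → H :=
  insertAt p 1 (insertAt p 2 c) - insertAt p 2 (insertAt p 1 c)

/-- Evaluation at `e_1 ^ t` on the last `t` factors: as `⟨e_1, e_1⟩ = 0`, this is (up to sign) the
coefficient of `e_2 ^ t`. -/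
def ev (t : ℕ) : (Word → H) →ₗ[K] (Word → H) where
  toFun c := fun u => c (u ++ List.replicate t 2)
  map_add' _ _ := rfl
  map_smul' _ _ := rfl

lemma ev_apply (t : ℕ) (c : Word → H) (u : Word) :
    ev (K := K) t c u = c (u ++ List.replicate t 2) := rfl

lemma insertAt_append {p : ℕ} {a b : Fin 4} {c : Word → H} {u v : Word} (hu : u.length = p) :
    insertAt p a c (u ++ b :: v) = if b = a then c (u ++ v) else 0 := by
  subst hu
  unfold insertAt
  have h1 : (u ++ b :: v)[u.length]? = some b := by simp
  have h2 : (u ++ b :: v).eraseIdx u.length = u ++ v := by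
    rw [List.eraseIdx_append_of_length_le le_rfl]
    simp
  rw [h1, h2]
  simp only [Option.some.injEq]

lemma ev_succ (t : ℕ) (c : Word → H) : ev (K := K) (t + 1) c = ev (K := K) t (part (K := K) 2 c) := by
  funext u
  simp only [ev_apply, part_apply, List.replicate_succ', List.append_assoc]

lemma monodromy_ev (N : H →ₗ[K] H) (t : ℕ) :
    ∀ c : Word → H, monodromy N (ev (K := K) t c) = ev (K := K) t (monodromy N c) := by
  induction t with
  | zero =>
    intro c
    have : ∀ c : Word → H, ev (K := K) 0 c = c := by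
      intro c; funext u; simp [ev_apply]
    rw [this, this]
  | succ t ih =>
    intro c
    rw [ev_succ, ev_succ, ih, part_monodromy, if_neg (by decide), add_zero]

lemma wordDeg_replicate (t : ℕ) : wordDeg (List.replicate t 2) = t := by
  simp [wordDeg, letterDeg]

lemma wordWt_replicate (t : ℕ) : wordWt (List.replicate t 2) = t := by
  simp [wordWt, letterWt]

lemma IsInv.ev {T : ℤ → ℤ → Submodule K H} {N : H →ₗ[K] H} {n t : ℕ} {j : ℤ} {c : Word → H}
    (h : IsInv T N (n + t) (2 * j) j c) : IsInv T N n (2 * j - t) (j - t) (ev (K := K) t c) := by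
  intro w hw
  have hw' : (w ++ List.replicate t (2 : Fin 4)).length = n + t := by simp [hw]
  refine ⟨?_, ?_⟩
  · have := (h _ hw').1
    rw [wordDeg_append, wordWt_append, wordDeg_replicate, wordWt_replicate] at this
    have e1 : 2 * j - (wordDeg w + (t : ℤ)) = 2 * j - t - wordDeg w := by ring
    have e2 : j - (wordWt w + (t : ℤ)) = j - t - wordWt w := by ring
    rwa [e1, e2] at this
  · rw [monodromy_ev, ev_apply]
    exact (h _ hw').2

/-- The properties of the classes of the elements of `Q_ℓ ⊗ gr^j K_{0,lim}(X × E ^ n)` that are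
used: `alg n j` is their span in `H^{2 j}(X × E ^ n)(j)`. -/
structure AlgClasses (T : ℤ → ℤ → Submodule K H) (N : H →ₗ[K] H) where
  /-- the span of the classes of algebraic cycles of codimension `j` on `X × E ^ n` -/
  alg : ℕ → ℤ → Submodule K (Word → H)
  /-- the classes are invariant under the log fundamental group -/
  inv : ∀ (n : ℕ) (j : ℤ), ∀ c ∈ alg n j, IsInv T N n (2 * j) j c
  /-- pullback along the projections `X × E ^ (n + 1) → X × E ^ n` -/
  insert_one : ∀ (n p : ℕ) (j : ℤ), p ≤ n → ∀ c ∈ alg n j, insertAt p 0 c ∈ alg (n + 1) j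
  /-- multiplication with the class of a point of one of the factors -/
  insert_point : ∀ (n p : ℕ) (j : ℤ), p ≤ n → ∀ c ∈ alg n j,
    insertAt p 3 c ∈ alg (n + 1) (j + 1)
  /-- multiplication with the class of the diagonal of two adjacent factors -/
  insert_diag : ∀ (n p : ℕ) (j : ℤ), p ≤ n → ∀ c ∈ alg n j,
    insertDiag p c ∈ alg (n + 2) (j + 1)

/-- `φ` is surjective for `X × E ^ n` and the integers `m, r` with `m = 2 r + t`: each element of
`H^m(X × E ^ n)(r)^G` is the evaluation at `e_1 ^ t` of the class of an element of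
`Q_ℓ ⊗ gr^{m - r} K_{0,lim}(X × E ^ n × E ^ t)`. -/
def AlgClasses.PhiSurjective {T : ℤ → ℤ → Submodule K H} {N : H →ₗ[K] H} (A : AlgClasses T N)
    (n : ℕ) (m r : ℤ) : Prop :=
  ∀ t : ℕ, m = 2 * r + t → ∀ c : Word → H, IsInv T N n m r c →
    ∃ z ∈ A.alg (n + t) (m - r), ∀ u : Word, u.length = n → z (u ++ List.replicate t 2) = c u

theorem AlgClasses.phiSurjective [CharZero K] {T : ℤ → ℤ → Submodule K H} {N : H →ₗ[K] H}
    (A : AlgClasses T N)
    (h0 : ∀ (k : ℕ) (j s : ℤ), (k : ℤ) ≤ 2 * s - j → ∀ x ∈ T j s, (N ^ k) x = 0 → x = 0)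
    (hs : ∀ m r : ℤ, 2 * r ≤ m → A.PhiSurjective 0 m r) (n : ℕ) (m r : ℤ) :
    A.PhiSurjective n m r := by
  intro t ht c hc
  have key := surj_all T N h0 (fun n t j => (A.alg (n + t) j).map (LT.ev (K := K) t))
    (by
      rintro n t j c ⟨z, hz, rfl⟩
      have h1 := A.insert_one (n + t) n j (by omega) z hz
      refine ⟨LT.ev (K := K) t (insertAt n 0 z), ⟨_, ?_, rfl⟩, ?_⟩
      · have : n + 1 + t = n + t + 1 := by ring
        simp only [SetLike.mem_coe]
        rw [this]; exact h1
      · intro u hu b
        rw [ev_apply, List.append_assoc, List.singleton_append, insertAt_append hu, ev_apply])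
    (by
      rintro n t j c ⟨z, hz, rfl⟩
      have h1 := A.insert_point (n + t) n j (by omega) z hz
      refine ⟨LT.ev (K := K) t (insertAt n 3 z), ⟨_, ?_, rfl⟩, ?_⟩
      · have : n + 1 + t = n + t + 1 := by ring
        simp only [SetLike.mem_coe]
        rw [this]; exact h1
      · intro u hu b
        rw [ev_apply, List.append_assoc, List.singleton_append, insertAt_append hu, ev_apply])
    (by
      rintro n t j c ⟨z, hz, rfl⟩
      refine ⟨LT.ev (K := K) t z, ⟨z, ?_, rfl⟩, ?_⟩
      · have : n + 1 + t = n + (t + 1) := by ring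
        simp only [SetLike.mem_coe] at hz ⊢
        rw [this]; exact hz
      · intro u hu
        rw [ev_apply, ev_apply, List.append_assoc, List.singleton_append, List.replicate_succ])
    (by
      rintro n t j c ⟨z, hz, rfl⟩
      have h1 := A.insert_diag (n + t) n j (by omega) z hz
      refine ⟨LT.ev (K := K) (t + 1) (insertDiag n z), ⟨_, ?_, rfl⟩, ?_⟩
      · have : n + 1 + (t + 1) = n + t + 2 := by ring
        simp only [SetLike.mem_coe]
        rw [this]; exact h1
      · intro u hu b
        rw [ev_apply, List.append_assoc, List.singleton_append, List.replicate_succ, insertDiag,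
          Pi.sub_apply, insertAt_append hu, insertAt_append hu, insertAt_append hu,
          insertAt_append hu, ev_apply]
        fin_cases b <;> simp)
    (by
      rintro n t j c ⟨z, hz, rfl⟩
      exact (A.inv _ _ z hz).ev)
    (by
      intro t j c hc
      have e : (2 * j - (t : ℤ)) - (j - (t : ℤ)) = j := by ring
      obtain ⟨z, hz, hz'⟩ := hs (2 * j - t) (j - t) (by
        have : (0 : ℤ) ≤ t := Int.natCast_nonneg t
        linarith) t (by ring) c hc
      rw [e] at hz
      refine ⟨LT.ev (K := K) t z, ⟨z, hz, rfl⟩, ?_⟩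
      have := hz' [] rfl
      rw [ev_apply]; exact this)
    n t (m - r) c (by
      have e1 : 2 * (m - r) - (t : ℤ) = m := by rw [ht]; ring
      have e2 : m - r - (t : ℤ) = r := by rw [ht]; ring
      rw [e1, e2]; exact hc)
  obtain ⟨c', ⟨z, hz, rfl⟩, h⟩ := key
  exact ⟨z, hz, h⟩

end Pool.Agent.R277.LT
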