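import Pool.Agent.R277.LT.Var

/-!
# The groups `K(X, m, r)`, with the correct sign
-/

set_option autoImplicit false

namespace Pool.Agent.R277.LT

universe u v

variable {K : Type u} [Field K] {H : Type v} [AddCommGroup H] [Module K H]

/-- The antisymmetrization over the last `t + 1` factors of the product of `c` (a class on
`X × E ^ n × E ^ t`) with the class `e_1 ⊗ e_2 - e_2 ⊗ e_1` on the factor number `n` and one of the
last `t + 1` factors, in Kunneth coordinates. As the last `t` letters of each word in `c` are `1` or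
`2`, which are odd, the Koszul signs and the signs of the permutations cancel. -/
def symDiag (n t : ℕ) (c : Word → H) : Word → H := fun w =>
  ((t : K) + 1)⁻¹ • ∑ i ∈ Finset.range (t + 1),
    if w[n]? = some 1 ∧ w[n + 1 + i]? = some 2 then c ((w.eraseIdx (n + 1 + i)).eraseIdx n)
    else if w[n]? = some 2 ∧ w[n + 1 + i]? = some 1 then
      -c ((w.eraseIdx (n + 1 + i)).eraseIdx n)
    else 0

/-- The properties of the groups `K(X × E ^ n, m, r)` that are used. `cls n t j` is the span in
`H^{2 j}(X × E ^ n × E ^ t)(j)` of the classes of the elements `x` of `gr^j K_0^log(X × E ^ n × E ^ t)`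
with `a_i^* x = a x` for the last `t` factors, on which the symmetric group of the last `t` factors
acts through its sign character. -/
structure KLogClasses (T : ℤ → ℤ → Submodule K H) (N : H →ₗ[K] H) where
  cls : ℕ → ℕ → ℤ → Submodule K (Word → H)
  /-- the classes are invariant under the log fundamental group -/
  inv : ∀ (n t : ℕ) (j : ℤ), ∀ c ∈ cls n t j, IsInv T N (n + t) (2 * j) j c
  /-- pullback along the projection forgetting the factor number `n` -/
  insert_one : ∀ (n t : ℕ) (j : ℤ), ∀ c ∈ cls n t j, insertAt n 0 c ∈ cls (n + 1) t j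
  /-- multiplication with the class of a point of this factor -/
  insert_point : ∀ (n t : ℕ) (j : ℤ), ∀ c ∈ cls n t j, insertAt n 3 c ∈ cls (n + 1) t (j + 1)
  /-- the conditions for `t + 1` factors imply those for the last `t` factors -/
  forget : ∀ (n t : ℕ) (j : ℤ), cls n (t + 1) j ≤ cls (n + 1) t j
  /-- product with the diagonal class, and antisymmetrization -/
  sym_diag : ∀ (n t : ℕ) (j : ℤ), ∀ c ∈ cls n t j,
    symDiag (K := K) n t c ∈ cls (n + 1) (t + 1) (j + 1)

/-- The map from `Q_ℓ ⊗ K(X × E ^ n, m, r)` to `H^m(X × E ^ n)(r)^G` is surjective, where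
`K(X × E ^ n, m, r)` is zero for `m < 2 r`. -/
def KLogClasses.Surjective {T : ℤ → ℤ → Submodule K H} {N : H →ₗ[K] H} (A : KLogClasses T N)
    (n : ℕ) (m r : ℤ) : Prop :=
  ∀ c : Word → H, IsInv T N n m r c →
    (m < 2 * r → ∀ u : Word, u.length = n → c u = 0) ∧
    (∀ t : ℕ, m = 2 * r + t →
      ∃ z ∈ A.cls n t (m - r), ∀ u : Word, u.length = n → z (u ++ List.replicate t 2) = c u)

theorem KLogClasses.surjective [CharZero K] {T : ℤ → ℤ → Submodule K H} {N : H →ₗ[K] H}
    (A : KLogClasses T N)
    (h0 : ∀ (k : ℕ) (j s : ℤ), (k : ℤ) ≤ 2 * s - j → ∀ x ∈ T j s, (N ^ k) x = 0 → x = 0)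
    (hs : ∀ m r : ℤ, A.Surjective 0 m r) (n : ℕ) (m r : ℤ) :
    A.Surjective n m r := by
  intro c hc
  constructor
  · intro hm
    exact neg_all T N h0 n 1 m r (by push_cast; linarith) c (fun w hw => (hc w hw).1)
      (fun w hw => by simpa using (hc w hw).2)
  intro t ht
  have key := surj_all T N h0 (fun n t j => (A.cls n t j).map (LT.ev (K := K) t))
    (by
      rintro n t j c ⟨z, hz, rfl⟩
      refine ⟨LT.ev (K := K) t (insertAt n 0 z), ⟨_, A.insert_one n t j z hz, rfl⟩, ?_⟩
      intro u hu b
      rw [ev_apply, List.append_assoc, List.singleton_append, insertAt_append hu, ev_apply])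
    (by
      rintro n t j c ⟨z, hz, rfl⟩
      refine ⟨LT.ev (K := K) t (insertAt n 3 z), ⟨_, A.insert_point n t j z hz, rfl⟩, ?_⟩
      intro u hu b
      rw [ev_apply, List.append_assoc, List.singleton_append, insertAt_append hu, ev_apply])
    (by
      rintro n t j c ⟨z, hz, rfl⟩
      refine ⟨LT.ev (K := K) t z, ⟨z, A.forget n t j hz, rfl⟩, ?_⟩
      intro u hu
      rw [ev_apply, ev_apply, List.append_assoc, List.singleton_append, List.replicate_succ])
    (by
      rintro n t j c ⟨z, hz, rfl⟩
      refine ⟨LT.ev (K := K) (t + 1) (symDiag (K := K) n t z),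
        ⟨_, A.sym_diag n t j z hz, rfl⟩, ?_⟩
      intro u hu b
      rw [ev_apply, ev_apply]
      have hlen : (u ++ [b]).length = n + 1 := by simp [hu]
      have h1 : ((u ++ [b]) ++ List.replicate (t + 1) (2 : Fin 4))[n]? = some b := by
        rw [List.getElem?_append_left (by omega)]
        subst hu; simp
      have h2 : ∀ i ∈ Finset.range (t + 1),
          ((u ++ [b]) ++ List.replicate (t + 1) (2 : Fin 4))[n + 1 + i]? = some 2 := by
        intro i hi
        rw [Finset.mem_range] at hi
        rw [List.getElem?_append_right (by omega), hlen]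
        have : n + 1 + i - (n + 1) = i := by omega
        rw [this]
        simp [hi]
      have h3 : ∀ i ∈ Finset.range (t + 1),
          ((((u ++ [b]) ++ List.replicate (t + 1) (2 : Fin 4)).eraseIdx (n + 1 + i)).eraseIdx n)
            = u ++ List.replicate t 2 := by
        intro i hi
        rw [Finset.mem_range] at hi
        rw [List.eraseIdx_append_of_length_le (by omega), hlen]
        have : n + 1 + i - (n + 1) = i := by omega
        rw [this, List.eraseIdx_replicate, if_pos hi, List.append_assoc,
          List.eraseIdx_append_of_length_le (by omega)]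
        subst hu
        simp
      unfold symDiag
      have h4 : ∀ i ∈ Finset.range (t + 1),
          (if ((u ++ [b]) ++ List.replicate (t + 1) (2 : Fin 4))[n]? = some 1 ∧
              ((u ++ [b]) ++ List.replicate (t + 1) (2 : Fin 4))[n + 1 + i]? = some 2 then
            z ((((u ++ [b]) ++ List.replicate (t + 1) (2 : Fin 4)).eraseIdx (n + 1 + i)).eraseIdx n)
          else if ((u ++ [b]) ++ List.replicate (t + 1) (2 : Fin 4))[n]? = some 2 ∧
              ((u ++ [b]) ++ List.replicate (t + 1) (2 : Fin 4))[n + 1 + i]? = some 1 then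
            -z ((((u ++ [b]) ++ List.replicate (t + 1) (2 : Fin 4)).eraseIdx (n + 1 + i)).eraseIdx n)
          else 0) = if b = 1 then z (u ++ List.replicate t 2) else 0 := by
        intro i hi
        rw [h1, h2 i hi, h3 i hi]
        fin_cases b <;> simp
      rw [Finset.sum_congr rfl h4, Finset.sum_const, Finset.card_range]
      have hne : ((t : K) + 1) ≠ 0 := Nat.cast_add_one_ne_zero t
      rw [← Nat.cast_smul_eq_nsmul K, smul_smul]
      push_cast
      rw [inv_mul_cancel₀ hne, one_smul])
    (by
      rintro n t j c ⟨z, hz, rfl⟩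
      exact (A.inv _ _ _ z hz).ev)
    (by
      intro t j c hc
      have e : (2 * j - (t : ℤ)) - (j - (t : ℤ)) = j := by ring
      obtain ⟨z, hz, hz'⟩ := (hs (2 * j - t) (j - t) c hc).2 t (by ring)
      rw [e] at hz
      refine ⟨LT.ev (K := K) t z, ⟨z, hz, rfl⟩, ?_⟩
      have := hz' [] rfl
      rw [ev_apply]; exact this)
    n t (m - r) c (by
      have e1 : 2 * (m - r) - (t : ℤ) = m := by rw [ht]; ring
      have e2 : m - r - (t : ℤ) = r := by rw [ht]; ring
      rw [e1, e2]; exact hc)
  obtain ⟨c', ⟨z, hz, rfl⟩, h⟩ := key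
  exact ⟨z, hz, h⟩

end Pool.Agent.R277.LT
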