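import Pool.Agent.R277.LT.Core

set_option autoImplicit false

namespace Pool.Agent.R277.LT

universe u v

variable {K : Type u} [Field K] {H : Type v} [AddCommGroup H] [Module K H]

lemma IsInv.part {T : ℤ → ℤ → Submodule K H} {N : H →ₗ[K] H} {n : ℕ} {m r : ℤ} {c : Word → H}
    (h : IsInv T N (n + 1) m r c) (a : Fin 4) :
    (∀ w : Word, w.length = n →
      part (K := K) a c w ∈ T (m - letterDeg a - wordDeg w) (r - letterWt a - wordWt w)) ∧
    (∀ w : Word, w.length = n → monodromy N (part (K := K) a c) w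
      + (if a = 1 then part (K := K) 2 c w else 0) = 0) := by
  constructor
  · intro w hw
    have := (h (w ++ [a]) (by simp [hw])).1
    rw [wordDeg_append, wordWt_append] at this
    have e1 : m - (wordDeg w + wordDeg [a]) = m - letterDeg a - wordDeg w := by
      simp [wordDeg]; ring
    have e2 : r - (wordWt w + wordWt [a]) = r - letterWt a - wordWt w := by
      simp [wordWt]; ring
    rwa [e1, e2] at this
  · intro w hw
    have := (h (w ++ [a]) (by simp [hw])).2
    have h2 : LT.part (K := K) a (monodromy N c) w = 0 := this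
    rw [part_monodromy] at h2
    rw [Pi.add_apply] at h2
    split_ifs at h2 ⊢ with ha
    · exact h2
    · exact h2

lemma IsInv.part_ne {T : ℤ → ℤ → Submodule K H} {N : H →ₗ[K] H} {n : ℕ} {m r : ℤ} {c : Word → H}
    (h : IsInv T N (n + 1) m r c) (a : Fin 4) (ha : a ≠ 1) :
    IsInv T N n (m - letterDeg a) (r - letterWt a) (LT.part (K := K) a c) := by
  intro w hw
  refine ⟨(h.part a).1 w hw, ?_⟩
  have := (h.part a).2 w hw
  rwa [if_neg ha, add_zero] at this

lemma IsInv.sub {T : ℤ → ℤ → Submodule K H} {N : H →ₗ[K] H} {n : ℕ} {m r : ℤ} {c c' : Word → H}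
    (h : IsInv T N n m r c) (h' : IsInv T N n m r c') : IsInv T N n m r (c - c') := by
  intro w hw
  refine ⟨?_, ?_⟩
  · rw [Pi.sub_apply]; exact sub_mem (h w hw).1 (h' w hw).1
  · rw [map_sub, Pi.sub_apply, (h w hw).2, (h' w hw).2, sub_zero]

/-- **Stability under products with a log Tate curve.**
`Im n t j` stands for the image of the classes of codimension `j` on `X × E ^ n × E ^ t` in
`H^{2 j - t}(X × E ^ n)(j - t)`. If this image is the whole invariant part for `n = 0`, then it is the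
whole invariant part for all `n`. -/
theorem surj_all [CharZero K] (T : ℤ → ℤ → Submodule K H) (N : H →ₗ[K] H)
    (h0 : ∀ (k : ℕ) (j s : ℤ), (k : ℤ) ≤ 2 * s - j → ∀ x ∈ T j s, (N ^ k) x = 0 → x = 0)
    (Im : ℕ → ℕ → ℤ → Submodule K (Word → H))
    (ha : ∀ n t j, ∀ c ∈ Im n t j, ∃ c' ∈ Im (n + 1) t j, ∀ u : Word, u.length = n →
      ∀ b : Fin 4, c' (u ++ [b]) = if b = 0 then c u else 0)
    (hb : ∀ n t j, ∀ c ∈ Im n t j, ∃ c' ∈ Im (n + 1) t (j + 1), ∀ u : Word, u.length = n →
      ∀ b : Fin 4, c' (u ++ [b]) = if b = 3 then c u else 0)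
    (hc : ∀ n t j, ∀ c ∈ Im n (t + 1) j, ∃ c' ∈ Im (n + 1) t j, ∀ u : Word, u.length = n →
      c' (u ++ [2]) = c u)
    (hd : ∀ n t j, ∀ c ∈ Im n t j, ∃ c' ∈ Im (n + 1) (t + 1) (j + 1), ∀ u : Word, u.length = n →
      ∀ b : Fin 4, c' (u ++ [b]) = if b = 1 then c u else 0)
    (he : ∀ (n t : ℕ) (j : ℤ), ∀ c ∈ Im n t j, IsInv T N n (2 * j - t) (j - t) c)
    (hs : ∀ (t : ℕ) (j : ℤ) (c : Word → H), IsInv T N 0 (2 * j - t) (j - t) c →
      ∃ c' ∈ Im 0 t j, c' [] = c [])
    (n : ℕ) :
    ∀ (t : ℕ) (j : ℤ) (c : Word → H), IsInv T N n (2 * j - t) (j - t) c →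
      ∃ c' ∈ Im n t j, ∀ u : Word, u.length = n → c' u = c u := by
  induction n with
  | zero =>
    intro t j c hcc
    obtain ⟨c', hc', h⟩ := hs t j c hcc
    refine ⟨c', hc', fun u hu => ?_⟩
    have : u = [] := List.length_eq_zero_iff.mp hu
    subst this; exact h
  | succ n ih =>
    intro t j c hcc
    -- the letter `2`
    have h2 := hcc.part_ne 2 (by decide)
    have e2 : (2 * j - (t : ℤ) - letterDeg 2) = 2 * j - ((t + 1 : ℕ) : ℤ) := by
      simp [letterDeg]; ring
    have e2' : (j - (t : ℤ) - letterWt 2) = j - ((t + 1 : ℕ) : ℤ) := by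
      simp [letterWt]; ring
    rw [e2, e2'] at h2
    obtain ⟨c2, hc2, h2'⟩ := ih (t + 1) j _ h2
    obtain ⟨z2, hz2, hz2'⟩ := hc n t j c2 hc2
    -- subtract
    have hd' : IsInv T N (n + 1) (2 * j - t) (j - t) (c - z2) := hcc.sub (he _ _ _ _ hz2)
    have hd2 : ∀ u : Word, u.length = n → part (K := K) 2 (c - z2) u = 0 := by
      intro u hu
      rw [part_apply, Pi.sub_apply, hz2' u hu, h2' u hu, part_apply, sub_self]
    -- the letter `0`
    have h0' := hd'.part_ne 0 (by decide)
    have e0 : (2 * j - (t : ℤ) - letterDeg 0) = 2 * j - (t : ℤ) := by simp [letterDeg]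
    have e0' : (j - (t : ℤ) - letterWt 0) = j - (t : ℤ) := by simp [letterWt]
    rw [e0, e0'] at h0'
    obtain ⟨c0, hc0, h0''⟩ := ih t j _ h0'
    obtain ⟨z0, hz0, hz0'⟩ := ha n t j c0 hc0
    -- the letter `3`
    have h3 := hd'.part_ne 3 (by decide)
    have e3 : (2 * j - (t : ℤ) - letterDeg 3) = 2 * (j - 1) - (t : ℤ) := by
      simp [letterDeg]; ring
    have e3' : (j - (t : ℤ) - letterWt 3) = (j - 1) - (t : ℤ) := by simp [letterWt]; ring
    rw [e3, e3'] at h3
    obtain ⟨c3, hc3, h3'⟩ := ih t (j - 1) _ h3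
    obtain ⟨z3, hz3, hz3'⟩ := hb n t (j - 1) c3 hc3
    rw [sub_add_cancel] at hz3
    -- the letter `1`
    have h1 := hd'.part 1
    have h1N : ∀ w : Word, w.length = n → monodromy N (part (K := K) 1 (c - z2)) w = 0 := by
      intro w hw
      have := h1.2 w hw
      rwa [if_pos rfl, hd2 w hw, add_zero] at this
    have hz1 : ∃ z1 ∈ Im (n + 1) t j, ∀ u : Word, u.length = n → ∀ b : Fin 4,
        z1 (u ++ [b]) = if b = 1 then part (K := K) 1 (c - z2) u else 0 := by
      rcases Nat.eq_zero_or_pos t with ht | ht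
      · subst ht
        refine ⟨0, zero_mem _, fun u hu b => ?_⟩
        have hneg := neg_all T N h0 n 1 (2 * j - 1) j (by push_cast; linarith)
          (part (K := K) 1 (c - z2)) (by
            intro w hw
            have := h1.1 w hw
            have e1 : 2 * j - ((0 : ℕ) : ℤ) - letterDeg 1 - wordDeg w
                = 2 * j - 1 - wordDeg w := by simp [letterDeg]
            have e1' : j - ((0 : ℕ) : ℤ) - letterWt 1 - wordWt w = j - wordWt w := by
              simp [letterWt]
            rwa [e1, e1'] at this) (by simpa using h1N) u hu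
        rw [hneg]; simp
      · obtain ⟨t, rfl⟩ : ∃ t', t = t' + 1 := ⟨t - 1, by omega⟩
        have hI : IsInv T N n (2 * (j - 1) - (t : ℤ)) ((j - 1) - (t : ℤ))
            (part (K := K) 1 (c - z2)) := by
          intro w hw
          refine ⟨?_, h1N w hw⟩
          have := h1.1 w hw
          have e1 : 2 * j - ((t + 1 : ℕ) : ℤ) - letterDeg 1 = 2 * (j - 1) - (t : ℤ) := by
            simp [letterDeg]; ring
          have e1' : j - ((t + 1 : ℕ) : ℤ) - letterWt 1 = (j - 1) - (t : ℤ) := by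
            simp [letterWt]; ring
          rwa [e1, e1'] at this
        obtain ⟨c1, hc1, h1'⟩ := ih t (j - 1) _ hI
        obtain ⟨z1, hz1, hz1'⟩ := hd n t (j - 1) c1 hc1
        rw [sub_add_cancel] at hz1
        refine ⟨z1, hz1, fun u hu b => ?_⟩
        rw [hz1' u hu b, h1' u hu]
    obtain ⟨z1, hz1, hz1'⟩ := hz1
    refine ⟨z2 + z0 + z3 + z1, add_mem (add_mem (add_mem hz2 hz0) hz3) hz1, ?_⟩
    intro w hw
    obtain ⟨u, b, hu, rfl⟩ := exists_snoc hw
    simp only [Pi.add_apply]
    rw [hz0' u hu b, hz3' u hu b, hz1' u hu b, h0'' u hu, h3' u hu]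
    have hd2u := hd2 u hu
    simp only [part_apply, Pi.sub_apply] at hd2u ⊢
    fin_cases b
    · simp
    · simp
    · simp only [Fin.reduceFinMk, Fin.isValue] at *
      have : z2 (u ++ [2]) = c (u ++ [2]) := by
        rw [sub_eq_zero] at hd2u; exact hd2u.symm
      simp [this]
    · simp

end Pool.Agent.R277.LT
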