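import Mathlib

/-!
# Socles and cosocles of modules with Frobenius and monodromy
-/

set_option autoImplicit false

namespace Pool.Agent.R277.LT.WMC

universe u v w

open Module Module.End

variable {K : Type u} [Field K] {M : Type v} [AddCommGroup M] [Module K M]
variable {M' : Type w} [AddCommGroup M'] [Module K M']

/-- `F - q ^ a`. -/
def U (F : Module.End K M) (q : K) (a : ℤ) : Module.End K M := F - (q ^ a) • 1

/-- The generalized eigenspace for `q ^ a`. -/
def G (F : Module.End K M) (q : K) (a : ℤ) : Submodule K M := F.maxGenEigenspace (q ^ a)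

lemma mem_G {F : Module.End K M} {q : K} {a : ℤ} {x : M} :
    x ∈ G F q a ↔ ∃ k : ℕ, ((U F q a) ^ k) x = 0 :=
  Module.End.mem_maxGenEigenspace F (q ^ a) x

section

variable {F N : Module.End K M} {q : K}

lemma N_U (hq : q ≠ 0) (hNF : ∀ x, N (F x) = q • F (N x)) (a : ℤ) (x : M) :
    N (U F q (a + 1) x) = q • U F q a (N x) := by
  simp only [U, LinearMap.sub_apply, LinearMap.smul_apply, Module.End.one_apply, map_sub,
    map_smul, hNF, smul_sub, smul_smul]
  rw [zpow_add₀ hq, zpow_one, mul_comm]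

lemma N_Upow (hq : q ≠ 0) (hNF : ∀ x, N (F x) = q • F (N x)) (a : ℤ) (k : ℕ) (x : M) :
    N (((U F q (a + 1)) ^ k) x) = q ^ k • ((U F q a) ^ k) (N x) := by
  induction k generalizing x with
  | zero => simp
  | succ k ih =>
    rw [pow_succ, Module.End.mul_apply, ih, N_U hq hNF, map_smul, smul_smul, pow_succ (U F q a),
      Module.End.mul_apply, ← pow_succ]

lemma Npow_U (hq : q ≠ 0) (hNF : ∀ x, N (F x) = q • F (N x)) (a : ℤ) (e : ℕ) (x : M) :
    (N ^ e) (U F q a x) = q ^ e • U F q (a - e) ((N ^ e) x) := by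
  induction e with
  | zero => simp
  | succ e ih =>
    rw [pow_succ' N, Module.End.mul_apply, ih, map_smul]
    have h : a - (e : ℤ) = (a - ((e + 1 : ℕ) : ℤ)) + 1 := by push_cast; ring
    rw [h, N_U hq hNF, smul_smul, ← pow_succ, Module.End.mul_apply]

lemma N_mem_G (hq : q ≠ 0) (hNF : ∀ x, N (F x) = q • F (N x)) {a : ℤ} {x : M}
    (hx : x ∈ G F q (a + 1)) : N x ∈ G F q a := by
  rw [mem_G] at hx ⊢
  obtain ⟨k, hk⟩ := hx
  refine ⟨k, ?_⟩
  have h := N_Upow hq hNF a k x
  rw [hk, map_zero] at h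
  rcases smul_eq_zero.mp h.symm with h1 | h1
  · exact absurd h1 (pow_ne_zero _ hq)
  · exact h1

lemma Npow_mem_G (hq : q ≠ 0) (hNF : ∀ x, N (F x) = q • F (N x)) {a : ℤ} {x : M}
    (hx : x ∈ G F q a) (e : ℕ) : (N ^ e) x ∈ G F q (a - e) := by
  induction e with
  | zero => simpa using hx
  | succ e ih =>
    rw [pow_succ', Module.End.mul_apply]
    have h : a - (e : ℤ) = (a - ((e + 1 : ℕ) : ℤ)) + 1 := by push_cast; ring
    rw [h] at ih
    exact N_mem_G hq hNF ih

lemma U_mem_G {a : ℤ} {x : M} (hx : x ∈ G F q a) : U F q a x ∈ G F q a := by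
  rw [mem_G] at hx ⊢
  obtain ⟨k, hk⟩ := hx
  refine ⟨k, ?_⟩
  rw [← Module.End.mul_apply, ← pow_succ, pow_succ', Module.End.mul_apply, hk, map_zero]

/-- The complement of the generalized eigenspace. -/
def R (F : Module.End K M) (q : K) (a : ℤ) : Submodule K M :=
  ⨅ k : ℕ, LinearMap.range ((U F q a) ^ k)

lemma isCompl_G_R [FiniteDimensional K M] (F : Module.End K M) (q : K) (a : ℤ) :
    IsCompl (G F q a) (R F q a) := by
  have h := LinearMap.isCompl_iSup_ker_pow_iInf_range_pow (U F q a)
  have h2 : G F q a = ⨆ k : ℕ, LinearMap.ker ((U F q a) ^ k) := by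
    unfold G U
    rw [← Module.End.iSup_genEigenspace_eq]
    exact iSup_congr fun k => Module.End.genEigenspace_nat
  rw [h2]
  exact h

lemma N_mem_R (hq : q ≠ 0) (hNF : ∀ x, N (F x) = q • F (N x)) {a : ℤ} {x : M}
    (hx : x ∈ R F q (a + 1)) : N x ∈ R F q a := by
  unfold R at hx ⊢
  rw [Submodule.mem_iInf] at hx ⊢
  intro k
  obtain ⟨z, rfl⟩ := hx k
  rw [N_Upow hq hNF, ← map_smul]
  exact ⟨_, rfl⟩

lemma U_mem_R {a : ℤ} {x : M} (hx : x ∈ R F q a) : U F q a x ∈ R F q a := by
  unfold R at hx ⊢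
  rw [Submodule.mem_iInf] at hx ⊢
  intro k
  obtain ⟨z, rfl⟩ := hx k
  refine ⟨U F q a z, ?_⟩
  rw [← Module.End.mul_apply, ← Module.End.mul_apply, ← pow_succ, pow_succ']

end

/-- Every invariant vector of the right weight is an image under a power of `N` (the property of
`H^i` which the log Tate conjecture yields). -/
def EvalSurj (F N : Module.End K M) (q : K) (i : ℤ) : Prop :=
  ∀ (r : ℤ) (e : ℕ), i = 2 * r + e → ∀ x : M, F x = q ^ r • x → N x = 0 →
    ∃ y : M, (N ^ e) y = x ∧ F y = q ^ (r + e) • y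

/-- `N ^ e` is a bijection from the generalized eigenspace of `q ^ a` onto that of `q ^ (a - e)`. -/
def Bij (F N : Module.End K M) (q : K) (a : ℤ) (e : ℕ) : Prop :=
  (∀ x ∈ G F q a, (N ^ e) x = 0 → x = 0) ∧ (∀ y ∈ G F q (a - e), ∃ x ∈ G F q a, (N ^ e) x = y)

/-- The properties of Poincare duality between `H^i` and `H^{2 d - i}`. -/
structure Duality (F N : Module.End K M) (F' N' : Module.End K M') (q : K) (d : ℤ)
    (p : M →ₗ[K] M' →ₗ[K] K) : Prop where
  p_F : ∀ x y, p (F x) (F' y) = q ^ d * p x y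
  p_N : ∀ x y, p (N x) y = -p x (N' y)
  left : ∀ x, (∀ y, p x y = 0) → x = 0
  right : ∀ y, (∀ x, p x y = 0) → y = 0

lemma Duality.flip {F N : Module.End K M} {F' N' : Module.End K M'} {q : K} {d : ℤ}
    {p : M →ₗ[K] M' →ₗ[K] K} (h : Duality F N F' N' q d p) : Duality F' N' F N q d p.flip where
  p_F x y := h.p_F y x
  p_N x y := by
    have := h.p_N y x
    simp only [LinearMap.flip_apply]
    rw [this, neg_neg]
  left := h.right
  right := h.left

lemma Duality.injective {F N : Module.End K M} {F' N' : Module.End K M'} {q : K} {d : ℤ}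
    {p : M →ₗ[K] M' →ₗ[K] K} (h : Duality F N F' N' q d p) (hq : q ≠ 0) :
    Function.Injective F := by
  rw [injective_iff_map_eq_zero]
  intro x hx
  refine h.left x fun y => ?_
  have := h.p_F x y
  rw [hx] at this
  simp only [map_zero, LinearMap.zero_apply] at this
  rcases mul_eq_zero.mp this.symm with h1 | h1
  · exact absurd h1 (zpow_ne_zero _ hq)
  · exact h1

lemma Duality.finrank_le [FiniteDimensional K M] [FiniteDimensional K M']
    {F N : Module.End K M} {F' N' : Module.End K M'} {q : K} {d : ℤ}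
    {p : M →ₗ[K] M' →ₗ[K] K} (h : Duality F N F' N' q d p) :
    finrank K M ≤ finrank K M' := by
  have hinj : Function.Injective p := by
    rw [injective_iff_map_eq_zero]
    intro x hx
    exact h.left x fun y => by rw [hx]; rfl
  have := LinearMap.finrank_le_finrank_of_injective hinj
  rwa [Subspace.dual_finrank_eq] at this

lemma Duality.exists_repr [FiniteDimensional K M] [FiniteDimensional K M']
    {F N : Module.End K M} {F' N' : Module.End K M'} {q : K} {d : ℤ}
    {p : M →ₗ[K] M' →ₗ[K] K} (h : Duality F N F' N' q d p) (ξ : Module.Dual K M) :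
    ∃ y : M', ∀ x, p x y = ξ x := by
  have hinj : Function.Injective p.flip := by
    rw [injective_iff_map_eq_zero]
    intro y hy
    exact h.right y fun x => by
      have : p.flip y x = 0 := by rw [hy]; rfl
      exact this
  have hrank : finrank K M' = finrank K (Module.Dual K M) := by
    rw [Subspace.dual_finrank_eq]
    exact le_antisymm h.flip.finrank_le h.finrank_le
  have hsurj : Function.Surjective p.flip :=
    (LinearMap.injective_iff_surjective_of_finrank_eq_finrank hrank).mp hinj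
  obtain ⟨y, hy⟩ := hsurj ξ
  exact ⟨y, fun x => by rw [← hy]; rfl⟩

lemma Duality.pow_N {F N : Module.End K M} {F' N' : Module.End K M'} {q : K} {d : ℤ}
    {p : M →ₗ[K] M' →ₗ[K] K} (h : Duality F N F' N' q d p) (e : ℕ) (x : M) (y : M') :
    p ((N ^ e) x) y = (-1) ^ e * p x ((N' ^ e) y) := by
  induction e generalizing x y with
  | zero => simp
  | succ e ih =>
    rw [pow_succ' N, Module.End.mul_apply, h.p_N, ih, pow_succ (N'), Module.End.mul_apply]
    ring

/-- The part of the cosocle in question is detected by functionals. -/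
lemma Duality.mem_of_pow [FiniteDimensional K M] [FiniteDimensional K M']
    {F N : Module.End K M} {F' N' : Module.End K M'} {q : K} {d : ℤ}
    {p : M →ₗ[K] M' →ₗ[K] K} (h : Duality F N F' N' q d p) (hq : q ≠ 0)
    (hNF : ∀ x, N (F x) = q • F (N x)) {i : ℤ}
    (hE : EvalSurj F' N' q (2 * d - i)) {a : ℤ} {e : ℕ} (hae : 2 * a = i + e) {x : M}
    (hx : x ∈ G F q a) (hN : (N ^ e) x = 0) :
    ∃ w ∈ G F q a, ∃ w' ∈ G F q (a + 1), x = U F q a w + N w' := by
  have h1 : x ∈ LinearMap.range (U F q a) ⊔ LinearMap.range N := by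
    by_contra hcon
    obtain ⟨ξ, hξx, hξ⟩ := Submodule.exists_dual_map_eq_bot_of_notMem hcon inferInstance
    have hξ1 : ∀ z, ξ (U F q a z) = 0 := by
      intro z
      have : ξ (U F q a z) ∈ Submodule.map ξ (LinearMap.range (U F q a) ⊔ LinearMap.range N) :=
        ⟨_, Submodule.mem_sup_left ⟨z, rfl⟩, rfl⟩
      rw [hξ] at this
      simpa using this
    have hξ2 : ∀ z, ξ (N z) = 0 := by
      intro z
      have : ξ (N z) ∈ Submodule.map ξ (LinearMap.range (U F q a) ⊔ LinearMap.range N) :=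
        ⟨_, Submodule.mem_sup_right ⟨z, rfl⟩, rfl⟩
      rw [hξ] at this
      simpa using this
    obtain ⟨y, hy⟩ := h.exists_repr ξ
    have hN'y : N' y = 0 := by
      refine h.right _ fun z => ?_
      have := h.p_N z y
      rw [hy, hξ2] at this
      linear_combination this
    have hFsurj : Function.Surjective F :=
      LinearMap.injective_iff_surjective.mp (h.injective hq)
    have hF'y : F' y = q ^ (d - a) • y := by
      rw [← sub_eq_zero]
      refine h.right _ fun z => ?_
      obtain ⟨z, rfl⟩ := hFsurj z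
      rw [map_sub, map_smul, h.p_F, smul_eq_mul]
      have h2 : ξ (F z) = q ^ a * ξ z := by
        have := hξ1 z
        simp only [U, LinearMap.sub_apply, LinearMap.smul_apply, Module.End.one_apply, map_sub,
          map_smul, smul_eq_mul] at this
        linear_combination this
      rw [hy, hy, h2, ← mul_assoc, ← zpow_add₀ hq]
      have : d - a + a = d := by ring
      rw [this, sub_self]
    obtain ⟨y', hy', -⟩ := hE (d - a) e (by linarith) y hF'y hN'y
    have h3 : p x y = 0 := by
      have h4 := h.pow_N e x y'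
      rw [hN, hy', map_zero, LinearMap.zero_apply] at h4
      rcases mul_eq_zero.mp h4.symm with h5 | h5
      · exact absurd h5 (pow_ne_zero _ (by norm_num))
      · exact h5
    rw [hy] at h3
    exact hξx h3
  obtain ⟨_, ⟨w, rfl⟩, _, ⟨w', rfl⟩, hw⟩ := Submodule.mem_sup.mp h1
  obtain ⟨w1, hw1, w2, hw2, hww⟩ := Submodule.mem_sup.mp
    ((isCompl_G_R F q a).sup_eq_top ▸ Submodule.mem_top : w ∈ G F q a ⊔ R F q a)
  obtain ⟨w1', hw1', w2', hw2', hww'⟩ := Submodule.mem_sup.mp
    ((isCompl_G_R F q (a + 1)).sup_eq_top ▸ Submodule.mem_top :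
      w' ∈ G F q (a + 1) ⊔ R F q (a + 1))
  refine ⟨w1, hw1, w1', hw1', ?_⟩
  have h2 : x - (U F q a w1 + N w1') = U F q a w2 + N w2' := by
    rw [← hw, ← hww, ← hww', map_add, map_add]; abel
  have h3 : x - (U F q a w1 + N w1') ∈ G F q a :=
    sub_mem hx (add_mem (U_mem_G hw1) (N_mem_G hq hNF hw1'))
  have h4 : x - (U F q a w1 + N w1') ∈ R F q a := by
    rw [h2]; exact add_mem (U_mem_R hw2) (N_mem_R hq hNF hw2')
  have h5 := (Submodule.disjoint_def.mp (isCompl_G_R F q a).disjoint) _ h3 h4
  exact sub_eq_zero.mp h5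

lemma Duality.inj_step [FiniteDimensional K M] [FiniteDimensional K M']
    {F N : Module.End K M} {F' N' : Module.End K M'} {q : K} {d : ℤ}
    {p : M →ₗ[K] M' →ₗ[K] K} (h : Duality F N F' N' q d p) (hq : q ≠ 0)
    (hNF : ∀ x, N (F x) = q • F (N x)) {i : ℤ}
    (hE : EvalSurj F N q i) (hE' : EvalSurj F' N' q (2 * d - i))
    {a : ℤ} {e : ℕ} (hae : 2 * a = i + e) (hB : Bij F N q (a + 1) (e + 2)) :
    ∀ x ∈ G F q a, (N ^ e) x = 0 → x = 0 := by
  have desc : ∀ x ∈ G F q a, (N ^ e) x = 0 →
      ∃ x' ∈ G F q a, (N ^ e) x' = 0 ∧ x = U F q a x' := by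
    intro x hx hN
    obtain ⟨w, hw, w', hw', hxw⟩ := h.mem_of_pow hq hNF hE' hae hx hN
    have h1 : (N ^ (e + 1)) w ∈ G F q (a + 1 - ((e + 2 : ℕ) : ℤ)) := by
      have := Npow_mem_G hq hNF hw (e + 1)
      have e1 : a - ((e + 1 : ℕ) : ℤ) = a + 1 - ((e + 2 : ℕ) : ℤ) := by push_cast; ring
      rwa [e1] at this
    obtain ⟨z, hz, hz'⟩ := hB.2 _ h1
    have hx2 : w - N z ∈ G F q a := sub_mem hw (N_mem_G hq hNF hz)
    have hx2N : (N ^ (e + 1)) (w - N z) = 0 := by
      rw [map_sub, ← Module.End.mul_apply _ N, ← pow_succ, hz', sub_self]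
    have hy0 : w' + q⁻¹ • U F q (a + 1) z = 0 := by
      refine hB.1 _ (add_mem hw' (Submodule.smul_mem _ _ (U_mem_G hz))) ?_
      rw [map_add, map_smul, Npow_U hq hNF, hz']
      have e2 : (N ^ (e + 2)) w' = (N ^ (e + 1)) (N w') := by
        rw [← Module.End.mul_apply, ← pow_succ]
      have e3 : (N ^ (e + 1)) (N w') = (N ^ (e + 1)) x - (N ^ (e + 1)) (U F q a w) := by
        rw [hxw, map_add]; abel
      have e4 : (N ^ (e + 1)) x = 0 := by
        rw [pow_succ', Module.End.mul_apply, hN, map_zero]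
      rw [e2, e3, e4, Npow_U hq hNF, zero_sub]
      have e5 : a + 1 - ((e + 2 : ℕ) : ℤ) = a - ((e + 1 : ℕ) : ℤ) := by push_cast; ring
      rw [e5, smul_smul]
      have e6 : q⁻¹ * q ^ (e + 2) = q ^ (e + 1) := by
        rw [pow_succ q (e + 1), mul_comm (q ^ (e + 1)) q, ← mul_assoc, inv_mul_cancel₀ hq, one_mul]
      rw [e6, neg_add_cancel]
    have hxx : x = U F q a (w - N z) := by
      have h2 : N w' = -U F q a (N z) := by
        have h3 : w' = -(q⁻¹ • U F q (a + 1) z) := eq_neg_of_add_eq_zero_left hy0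
        rw [h3, map_neg, map_smul, N_U hq hNF, smul_smul, inv_mul_cancel₀ hq, one_smul]
      rw [map_sub, hxw, h2]; abel
    have hv1 : N ((N ^ e) (w - N z)) = 0 := by
      rw [← Module.End.mul_apply, ← pow_succ']; exact hx2N
    have hv2 : F ((N ^ e) (w - N z)) = q ^ (a - e) • ((N ^ e) (w - N z)) := by
      have h3 := hN
      rw [hxx, Npow_U hq hNF] at h3
      rcases smul_eq_zero.mp h3 with h4 | h4
      · exact absurd h4 (pow_ne_zero _ hq)
      · simp only [U, LinearMap.sub_apply, LinearMap.smul_apply, Module.End.one_apply] at h4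
        exact sub_eq_zero.mp h4
    obtain ⟨y, hy, hy'⟩ := hE (a - e) e (by linarith) _ hv2 hv1
    have e7 : a - (e : ℤ) + e = a := by ring
    rw [e7] at hy'
    have hUy : U F q a y = 0 := by
      simp only [U, LinearMap.sub_apply, LinearMap.smul_apply, Module.End.one_apply]
      rw [hy', sub_self]
    have hyG : y ∈ G F q a := mem_G.mpr ⟨1, by rw [pow_one]; exact hUy⟩
    refine ⟨w - N z - y, sub_mem hx2 hyG, ?_, ?_⟩
    · rw [map_sub, hy, sub_self]
    · rw [map_sub, hUy, sub_zero]; exact hxx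
  have desc' : ∀ k : ℕ, ∀ x ∈ G F q a, (N ^ e) x = 0 →
      ∃ x' ∈ G F q a, (N ^ e) x' = 0 ∧ x = ((U F q a) ^ k) x' := by
    intro k
    induction k with
    | zero => intro x hx hN; exact ⟨x, hx, hN, by simp⟩
    | succ k ih =>
      intro x hx hN
      obtain ⟨x1, hx1, hN1, rfl⟩ := ih x hx hN
      obtain ⟨x2, hx2, hN2, rfl⟩ := desc x1 hx1 hN1
      refine ⟨x2, hx2, hN2, ?_⟩
      rw [pow_succ, Module.End.mul_apply]
  intro x hx hN
  obtain ⟨x', hx', -, rfl⟩ := desc' (finrank K M) x hx hN
  have h2 : G F q a = F.genEigenspace (q ^ a) (finrank K M) :=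
    Module.End.maxGenEigenspace_eq_genEigenspace_finrank F (q ^ a)
  rw [h2, Module.End.mem_genEigenspace_nat] at hx'
  exact hx'

lemma Duality.eq_zero [FiniteDimensional K M] [FiniteDimensional K M']
    {F N : Module.End K M} {F' N' : Module.End K M'} {q : K} {d : ℤ}
    {p : M →ₗ[K] M' →ₗ[K] K} (h : Duality F N F' N' q d p) (hq : q ≠ 0) (a : ℤ) (k : ℕ) :
    ∀ x : M, ((U F q a) ^ k) x = 0 → ∀ z : M', p x (((U F' q (d - a)) ^ k) z) = 0 := by
  have hFinj := h.injective hq
  have hFsurj : Function.Surjective F := LinearMap.injective_iff_surjective.mp hFinj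
  have hcomm : ∀ (k : ℕ) (x : M), ((U F q a) ^ k) (F x) = F (((U F q a) ^ k) x) := by
    intro k x
    have : Commute (U F q a) F := by
      unfold U
      exact (Commute.refl F).sub_left ((Commute.one_left F).smul_left _)
    have h2 := (this.pow_left k).eq
    rw [← Module.End.mul_apply, h2, Module.End.mul_apply]
  induction k with
  | zero => intro x hx z; simp only [pow_zero, Module.End.one_apply] at hx; rw [hx]; simp
  | succ k ih =>
    intro x hx z
    obtain ⟨x0, rfl⟩ := hFsurj x
    have hx0 : ((U F q a) ^ k) (U F q a x0) = 0 := by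
      rw [hcomm] at hx
      have := (injective_iff_map_eq_zero F).mp hFinj _ hx
      rwa [pow_succ, Module.End.mul_apply] at this
    have key : ∀ z' : M', p (F x0) (U F' q (d - a) z') = -q ^ (d - a) * p (U F q a x0) z' := by
      intro z'
      simp only [U, LinearMap.sub_apply, LinearMap.smul_apply, Module.End.one_apply, map_sub,
        map_smul, smul_eq_mul, h.p_F]
      have e1 : q ^ d = q ^ (d - a) * q ^ a := by rw [← zpow_add₀ hq]; congr 1; ring
      rw [e1]; ring
    rw [pow_succ', Module.End.mul_apply, key, ih _ hx0, mul_zero]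

lemma Duality.finrank_G_le [FiniteDimensional K M] [FiniteDimensional K M']
    {F N : Module.End K M} {F' N' : Module.End K M'} {q : K} {d : ℤ}
    {p : M →ₗ[K] M' →ₗ[K] K} (h : Duality F N F' N' q d p) (hq : q ≠ 0) (a : ℤ) :
    finrank K (G F q a) ≤ finrank K (G F' q (d - a)) := by
  let f : G F q a →ₗ[K] Module.Dual K (G F' q (d - a)) :=
    (LinearMap.lcomp K K (G F' q (d - a)).subtype).comp (p.comp (G F q a).subtype)
  have hf : ∀ x y, f x y = p x y := fun x y => rfl
  have hinj : Function.Injective f := by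
    rw [injective_iff_map_eq_zero]
    intro x hx
    have hx' : (x : M) = 0 := by
      refine h.left _ fun y => ?_
      obtain ⟨y1, hy1, y2, hy2, rfl⟩ := Submodule.mem_sup.mp
        ((isCompl_G_R F' q (d - a)).sup_eq_top ▸ Submodule.mem_top :
          y ∈ G F' q (d - a) ⊔ R F' q (d - a))
      obtain ⟨k, hk⟩ := mem_G.mp x.2
      have h1 : p x y1 = 0 := by
        rw [← hf x ⟨y1, hy1⟩, hx]; rfl
      have h2 : p x y2 = 0 := by
        unfold R at hy2
        rw [Submodule.mem_iInf] at hy2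
        obtain ⟨z, rfl⟩ := hy2 k
        exact h.eq_zero hq a k x hk z
      rw [map_add, h1, h2, add_zero]
    exact Subtype.ext hx'
  have := LinearMap.finrank_le_finrank_of_injective hinj
  rwa [Subspace.dual_finrank_eq] at this

lemma Duality.finrank_G [FiniteDimensional K M] [FiniteDimensional K M']
    {F N : Module.End K M} {F' N' : Module.End K M'} {q : K} {d : ℤ}
    {p : M →ₗ[K] M' →ₗ[K] K} (h : Duality F N F' N' q d p) (hq : q ≠ 0) (a : ℤ) :
    finrank K (G F q a) = finrank K (G F' q (d - a)) := by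
  refine le_antisymm (h.finrank_G_le hq a) ?_
  have := h.flip.finrank_G_le hq (d - a)
  rwa [sub_sub_cancel] at this

/-- An injective `N ^ e` gives an inequality of dimensions, and conversely with equal dimensions it
is bijective. -/
lemma bij_of_inj [FiniteDimensional K M] {F N : Module.End K M} {q : K} (hq : q ≠ 0)
    (hNF : ∀ x, N (F x) = q • F (N x)) {a : ℤ} {e : ℕ}
    (hinj : ∀ x ∈ G F q a, (N ^ e) x = 0 → x = 0) :
    finrank K (G F q a) ≤ finrank K (G F q (a - e)) ∧
    (finrank K (G F q a) = finrank K (G F q (a - e)) → Bij F N q a e) := by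
  let f : G F q a →ₗ[K] G F q (a - e) :=
    (N ^ e).restrict fun x hx => Npow_mem_G hq hNF hx e
  have hf : ∀ x, ((f x : G F q (a - e)) : M) = (N ^ e) x := fun x => rfl
  have hfi : Function.Injective f := by
    rw [injective_iff_map_eq_zero]
    intro x hx
    refine Subtype.ext (hinj x x.2 ?_)
    rw [← hf, hx]; rfl
  refine ⟨LinearMap.finrank_le_finrank_of_injective hfi, fun hrank => ⟨hinj, ?_⟩⟩
  intro y hy
  obtain ⟨x, hx⟩ := (LinearMap.injective_iff_surjective_of_finrank_eq_finrank hrank).mp hfi ⟨y, hy⟩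
  exact ⟨x, x.2, by rw [← hf, hx]⟩

/-- Almost all of the generalized eigenspaces vanish. -/
lemma exists_bound [FiniteDimensional K M] (F : Module.End K M) {q : K}
    (hinj : Function.Injective fun a : ℤ => q ^ a) :
    ∃ B : ℕ, ∀ a : ℤ, (B : ℤ) ≤ |a| → G F q a = ⊥ := by
  have h1 : Set.Finite {μ : K | F.maxGenEigenspace μ ≠ ⊥} :=
    WellFoundedGT.finite_ne_bot_of_iSupIndep (Module.End.independent_maxGenEigenspace F)
  have h2 : Set.Finite {a : ℤ | G F q a ≠ ⊥} := by
    have := h1.preimage (f := fun a : ℤ => q ^ a) hinj.injOn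
    exact this
  obtain ⟨B, hB⟩ := (h2.image (fun a : ℤ => a.natAbs)).bddAbove
  refine ⟨B + 1, fun a ha => ?_⟩
  by_contra hcon
  have h3 : a.natAbs ≤ B := hB ⟨a, hcon, rfl⟩
  have h4 : (a.natAbs : ℤ) = |a| := Int.natCast_natAbs a
  have h5 : ((a.natAbs : ℕ) : ℤ) ≤ B := by exact_mod_cast h3
  rw [h4] at h5
  push_cast at ha
  linarith

lemma bij_bot (F N : Module.End K M) {q : K} (a : ℤ) (e : ℕ) (h1 : G F q a = ⊥)
    (h2 : G F q (a - e) = ⊥) : Bij F N q a e := by
  refine ⟨fun x hx _ => by rw [h1] at hx; simpa using hx, fun y hy => ⟨0, zero_mem _, ?_⟩⟩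
  rw [h2] at hy
  rw [map_zero]
  exact ((Submodule.mem_bot K).mp hy).symm

/-- **The log Tate conjecture implies the monodromy-weight conjecture for the eigenvalues `q ^ a`.** -/
theorem bij_of_evalSurj [FiniteDimensional K M] [FiniteDimensional K M']
    {F N : Module.End K M} {F' N' : Module.End K M'} {q : K} {d : ℤ}
    {p : M →ₗ[K] M' →ₗ[K] K} (h : Duality F N F' N' q d p)
    (hqi : Function.Injective fun a : ℤ => q ^ a) (hq : q ≠ 0)
    (hNF : ∀ x, N (F x) = q • F (N x)) (hNF' : ∀ x, N' (F' x) = q • F' (N' x)) {i : ℤ}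
    (hE : EvalSurj F N q i) (hE' : EvalSurj F' N' q (2 * d - i)) :
    ∀ (e : ℕ) (a : ℤ), 2 * a = i + e → Bij F N q a e := by
  obtain ⟨B, hB⟩ := exists_bound F hqi
  obtain ⟨B', hB'⟩ := exists_bound F' hqi
  have hE0 : EvalSurj F N q (2 * d - (2 * d - i)) := by rwa [sub_sub_cancel]
  have main : ∀ (k e : ℕ), (2 * B + 2 * B' + |i| + |2 * d - i| : ℤ) ≤ e + 2 * k →
      (∀ a : ℤ, 2 * a = i + e → Bij F N q a e) ∧
      (∀ a : ℤ, 2 * a = (2 * d - i) + e → Bij F' N' q a e) := by
    intro k
    induction k with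
    | zero =>
      intro e he
      push_cast at he
      have hi1 := neg_abs_le i
      have hi2 := neg_abs_le (2 * d - i)
      have hi3 := le_abs_self i
      have hi4 := le_abs_self (2 * d - i)
      have hB0 : (0 : ℤ) ≤ B := Int.natCast_nonneg B
      have hB0' : (0 : ℤ) ≤ B' := Int.natCast_nonneg B'
      have habs1 := abs_nonneg i
      have habs2 := abs_nonneg (2 * d - i)
      constructor
      · intro a ha
        refine bij_bot F N a e (hB a ?_) (hB _ ?_)
        · rw [le_abs]; left; omega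
        · rw [le_abs]; right; omega
      · intro a ha
        refine bij_bot F' N' a e (hB' a ?_) (hB' _ ?_)
        · rw [le_abs]; left; omega
        · rw [le_abs]; right; omega
    | succ k ih =>
      intro e he
      obtain ⟨ih1, ih2⟩ := ih (e + 2) (by push_cast at he ⊢; linarith)
      have hinj1 : ∀ a : ℤ, 2 * a = i + e → ∀ x ∈ G F q a, (N ^ e) x = 0 → x = 0 := by
        intro a ha
        exact h.inj_step hq hNF hE hE' ha (ih1 (a + 1) (by push_cast; linarith))
      have hinj2 : ∀ a : ℤ, 2 * a = (2 * d - i) + e →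
          ∀ x ∈ G F' q a, (N' ^ e) x = 0 → x = 0 := by
        intro a ha
        exact h.flip.inj_step hq hNF' hE' hE0 ha (ih2 (a + 1) (by push_cast; linarith))
      constructor
      · intro a ha
        have h1 := bij_of_inj hq hNF (hinj1 a ha)
        have h2 := bij_of_inj hq hNF' (hinj2 (d - (a - e)) (by linarith))
        refine h1.2 (le_antisymm h1.1 ?_)
        have e1 := h.finrank_G hq a
        have e2 := h.finrank_G hq (a - e)
        have e3 : d - (a - (e : ℤ)) - e = d - a := by ring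
        rw [e3] at h2
        rw [e1, e2]
        exact h2.1
      · intro a ha
        have h1 := bij_of_inj hq hNF' (hinj2 a ha)
        have h2 := bij_of_inj hq hNF (hinj1 (d - (a - e)) (by linarith))
        refine h1.2 (le_antisymm h1.1 ?_)
        have e1 := h.flip.finrank_G hq a
        have e2 := h.flip.finrank_G hq (a - e)
        have e3 : d - (a - (e : ℤ)) - e = d - a := by ring
        rw [e3] at h2
        rw [e1, e2]
        exact h2.1
  intro e a ha
  have hk : (2 * B + 2 * B' + |i| + |2 * d - i| : ℤ) ≤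
      e + 2 * ((2 * B + 2 * B' + |i| + |2 * d - i|).toNat : ℤ) := by
    have h1 := Int.self_le_toNat (2 * B + 2 * B' + |i| + |2 * d - i| : ℤ)
    have h2 : (0 : ℤ) ≤ e := Int.natCast_nonneg e
    have h3 : (0 : ℤ) ≤ ((2 * B + 2 * B' + |i| + |2 * d - i| : ℤ).toNat : ℤ) :=
      Int.natCast_nonneg _
    linarith
  exact (main _ e hk).1 a ha

end Pool.Agent.R277.LT.WMC
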