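import Pool.Agent.R277.LT.Var
import Pool.Agent.R277.LT.WMC

/-!
# The log Tate conjecture for `X` implies the monodromy-weight conjecture for `X`
-/

set_option autoImplicit false

namespace Pool.Agent.R277.LT

universe u v

section

variable {K : Type u} [Field K] {H : Type v} [AddCommGroup H] [Module K H]

lemma sum_count (w : Word) (v : H) :
    (∑ i ∈ Finset.range w.length, if w[i]? = some 1 then v else 0) = (w.count 1) • v := by
  induction w with
  | nil => simp
  | cons a w ih =>
    rw [List.length_cons, Finset.sum_range_succ']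
    simp only [List.getElem?_cons_succ, List.getElem?_cons_zero, ih]
    by_cases h : a = 1
    · subst h
      simp [succ_nsmul]
    · simp [h]

/-- The word `w` with all letters `1` changed to `2`. -/
def raise (w : Word) : Word := w.map fun a => if a = 1 then 2 else a

lemma raise_set {w : Word} {i : ℕ} (h : w[i]? = some 1) : raise (w.set i 2) = raise w := by
  unfold raise
  apply List.ext_getElem?
  intro j
  rw [List.getElem?_map, List.getElem?_map, List.getElem?_set]
  by_cases hij : i = j
  · subst hij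
    rw [if_pos rfl]
    have hlt : i < w.length := by
      by_contra hcon
      rw [List.getElem?_eq_none (by omega)] at h
      simp at h
    rw [if_pos hlt, h]
    simp
  · rw [if_neg hij]

lemma count_set {w : Word} {i : ℕ} (h : w[i]? = some 1) :
    (w.set i 2).count 1 + 1 = w.count 1 := by
  induction w generalizing i with
  | nil => simp at h
  | cons a w ih =>
    cases i with
    | zero =>
      simp only [List.getElem?_cons_zero, Option.some.injEq] at h
      subst h
      simp
    | succ i =>
      rw [List.getElem?_cons_succ] at h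
      have := ih h
      rw [List.set_cons_succ, List.count_cons, List.count_cons]
      omega

lemma N_pow_apply {N : H →ₗ[K] H} {n : ℕ} {z : Word → H}
    (hz : ∀ w : Word, w.length = n → monodromy N z w = 0) (e : ℕ) :
    ∀ w : Word, w.length = n → w.count 1 = e →
      (N ^ e) (z w) = ((-1 : K) ^ e * (e.factorial : K)) • z (raise w) := by
  induction e with
  | zero =>
    intro w _ hc
    have : raise w = w := by
      unfold raise
      have h1 : (1 : Fin 4) ∉ w := List.count_eq_zero.mp hc
      conv_rhs => rw [← List.map_id w]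
      apply List.map_congr_left
      intro a ha
      have : a ≠ 1 := fun h => h1 (h ▸ ha)
      simp [this]
    simp [this]
  | succ e ih =>
    intro w hw hc
    have h1 : N (z w) = - ∑ i ∈ Finset.range w.length,
        if w[i]? = some 1 then z (w.set i 2) else 0 := by
      have := hz w hw
      simp only [monodromy, LinearMap.coe_mk, AddHom.coe_mk] at this
      exact eq_neg_of_add_eq_zero_left this
    rw [pow_succ, Module.End.mul_apply, h1, map_neg, map_sum]
    have h2 : ∀ i ∈ Finset.range w.length,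
        (N ^ e) (if w[i]? = some 1 then z (w.set i 2) else 0)
          = if w[i]? = some 1 then ((-1 : K) ^ e * (e.factorial : K)) • z (raise w) else 0 := by
      intro i _
      split_ifs with h
      · rw [ih (w.set i 2) (by simpa using hw) (by have := count_set h; omega), raise_set h]
      · simp
    rw [Finset.sum_congr rfl h2, sum_count, hc, ← Nat.cast_smul_eq_nsmul K, smul_smul, ← neg_smul,
      Nat.factorial_succ]
    congr 1
    push_cast
    ring

end

section

variable {K : Type u} [Field K] {H : Type v} [AddCommGroup H] [Module K H]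

/-- Poincare duality in dimension `d`: the cup product
`H^i × H^{2 d - i} → H^{2 d} → K(-d)` is a perfect pairing of finite-dimensional spaces,
compatible with Frobenius and monodromy. -/
structure PoincareDuality (gr : ℤ → Submodule K H) (F N : H →ₗ[K] H) (q : K) (d : ℤ) where
  pair : H →ₗ[K] H →ₗ[K] K
  finite : ∀ i : ℤ, FiniteDimensional K (gr i)
  pair_F : ∀ x y, pair (F x) (F y) = q ^ d * pair x y
  pair_N : ∀ x y, pair (N x) y = -pair x (N y)
  nondegenerate : ∀ i : ℤ, ∀ x ∈ gr i, (∀ y ∈ gr (2 * d - i), pair x y = 0) → x = 0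
  nondegenerate' : ∀ i : ℤ, ∀ y ∈ gr (2 * d - i), (∀ x ∈ gr i, pair x y = 0) → y = 0

/-- The generalized eigenspace of `F` on `H^i` with eigenvalue `q ^ a`. -/
def genEig (gr : ℤ → Submodule K H) (F : H →ₗ[K] H) (q : K) (i a : ℤ) : Submodule K H :=
  gr i ⊓ Module.End.maxGenEigenspace F (q ^ a)

/-- The statement of the monodromy-weight conjecture for the generalized eigenspaces of Frobenius
with eigenvalues in `q ^ ℤ`: for `2 a = i + e`, the operator `N ^ e` is a bijection from the
generalized eigenspace of `F` on `H^i` with eigenvalue `q ^ a` onto the one with eigenvalue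
`q ^ (a - e)`. -/
def MonodromyWeight (gr : ℤ → Submodule K H) (F N : H →ₗ[K] H) (q : K) : Prop :=
  ∀ (i a : ℤ) (e : ℕ), 2 * a = i + e →
    (∀ x ∈ genEig gr F q i a, (N ^ e) x = 0 → x = 0) ∧
    (∀ y ∈ genEig gr F q i (a - e), ∃ x ∈ genEig gr F q i a, (N ^ e) x = y)

/-- The scalar `q` by which the geometric Frobenius of a field with `q` elements acts on `K(-1)`. -/
def frob (K : Type u) [Field K] (q : ℕ) : Unit → K := fun _ => (q : K)

end

namespace LogVariety

variable {K : Type u} [Field K] {q : ℕ} (X : LogVariety.{u, v} K Unit (frob K q))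

/-- Frobenius on `H^i(X)`. -/
def Fr (i : ℤ) : X.gr i →ₗ[K] X.gr i := (X.F ()).restrict fun x hx => X.F_mem () i x hx

/-- The monodromy operator on `H^i(X)`. -/
def Mo (i : ℤ) : X.gr i →ₗ[K] X.gr i := X.N.restrict fun x hx => X.N_mem i x hx

lemma coe_Fr (i : ℤ) (x : X.gr i) : ((X.Fr i x : X.gr i) : X.H) = X.F () x := rfl

lemma coe_Mo (i : ℤ) (x : X.gr i) : ((X.Mo i x : X.gr i) : X.H) = X.N x := rfl

lemma coe_Mo_pow (i : ℤ) (e : ℕ) (x : X.gr i) :
    (((X.Mo i ^ e) x : X.gr i) : X.H) = (X.N ^ e) x := by
  induction e generalizing x with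
  | zero => simp
  | succ e ih => rw [pow_succ, Module.End.mul_apply, ih, coe_Mo, pow_succ, Module.End.mul_apply]

lemma Mo_Fr (i : ℤ) (x : X.gr i) : X.Mo i (X.Fr i x) = (q : K) • X.Fr i (X.Mo i x) :=
  Subtype.ext (X.N_F () x)

variable {X}

/-- Surjectivity of `φ` for `X` gives, via the invariance of the classes on `X × E ^ t`, that every
invariant vector is the image of a Frobenius eigenvector under a power of the monodromy operator. -/
lemma evalSurj [CharZero K] (hs : ∀ m r : ℤ, 2 * r ≤ m → X.PhiSurjective 0 m r) (i : ℤ) :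
    WMC.EvalSurj (X.Fr i) (X.Mo i) (q : K) i := by
  intro r e hie x hF hN
  have hF' : X.F () (x : X.H) = (q : K) ^ r • (x : X.H) := by
    have := congrArg (Subtype.val) hF
    exact this
  have hN' : X.N (x : X.H) = 0 := by
    have := congrArg (Subtype.val) hN
    exact this
  obtain ⟨z, hz, hz'⟩ := hs i r (by
    have : (0 : ℤ) ≤ e := Int.natCast_nonneg e
    linarith) e hie (fun w => if w = [] then (x : X.H) else 0) (by
    intro w hw
    have : w = [] := List.length_eq_zero_iff.mp hw
    subst this
    refine ⟨?_, ?_⟩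
    · simp only [wordDeg, wordWt, List.map_nil, List.sum_nil, sub_zero, if_true]
      exact ⟨x.2, fun g => by cases g; exact hF'⟩
    · simp [monodromy, hN'])
  have hz1 := hz' [] rfl
  simp only [List.nil_append, if_true] at hz1
  rw [zero_add] at hz
  have hinv := X.classes.inv e (i - r) z hz
  have hw : (List.replicate e (1 : Fin 4)).length = e := by simp
  have h1 := (hinv _ hw).1
  have e1 : 2 * (i - r) - wordDeg (List.replicate e 1) = i := by
    simp [wordDeg, letterDeg]; linarith
  have e2 : i - r - wordWt (List.replicate e 1) = r + e := by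
    simp [wordWt, letterWt]; linarith
  rw [e1, e2] at h1
  have h2 := N_pow_apply (N := X.N) (n := e) (z := z) (fun w hw => (hinv w hw).2) e _ hw (by simp)
  have e3 : raise (List.replicate e 1) = List.replicate e 2 := by simp [raise]
  rw [e3, hz1] at h2
  have hne : ((-1 : K) ^ e * (e.factorial : K)) ≠ 0 :=
    mul_ne_zero (pow_ne_zero _ (by norm_num)) (Nat.cast_ne_zero.mpr (Nat.factorial_ne_zero e))
  refine ⟨((-1 : K) ^ e * (e.factorial : K))⁻¹ • ⟨z (List.replicate e 1), h1.1⟩, ?_, ?_⟩
  · refine Subtype.ext ?_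
    rw [map_smul, Submodule.coe_smul, coe_Mo_pow, h2, smul_smul, inv_mul_cancel₀ hne, one_smul]
  · refine Subtype.ext ?_
    rw [map_smul, Submodule.coe_smul, Submodule.coe_smul, Submodule.coe_smul, coe_Fr]
    have := h1.2 ()
    rw [this, smul_comm]
    rfl

lemma zpow_inj [CharZero K] (hq : 1 < q) : Function.Injective fun a : ℤ => (q : K) ^ a := by
  intro a b hab
  have h1 : (((q : ℚ) ^ a : ℚ) : K) = (((q : ℚ) ^ b : ℚ) : K) := by
    push_cast
    exact hab
  have h2 : (q : ℚ) ^ a = (q : ℚ) ^ b := Rat.cast_injective h1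
  exact zpow_right_injective₀ (by exact_mod_cast (by omega : 0 < q)) (by
    intro h; have : q = 1 := by exact_mod_cast h
    omega) h2

lemma duality {d : ℤ} (P : PoincareDuality X.gr (X.F ()) X.N (q : K) d) (i : ℤ) :
    WMC.Duality (X.Fr i) (X.Mo i) (X.Fr (2 * d - i)) (X.Mo (2 * d - i)) (q : K) d
      ((LinearMap.lcomp K K (X.gr (2 * d - i)).subtype).comp (P.pair.comp (X.gr i).subtype)) where
  p_F x y := P.pair_F x y
  p_N x y := P.pair_N x y
  left x hx := Subtype.ext (P.nondegenerate i x x.2 fun y hy => hx ⟨y, hy⟩)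
  right y hy := Subtype.ext (P.nondegenerate' i y y.2 fun x hx => hy ⟨x, hx⟩)

lemma coe_mem_gen (i a : ℤ) (x : X.gr i) :
    x ∈ WMC.G (X.Fr i) (q : K) a ↔ (x : X.H) ∈ Module.End.maxGenEigenspace (X.F ()) ((q : K) ^ a) := by
  rw [WMC.mem_G, Module.End.mem_maxGenEigenspace]
  have key : ∀ (k : ℕ) (x : X.gr i), (((WMC.U (X.Fr i) (q : K) a ^ k) x : X.gr i) : X.H)
      = ((X.F () - ((q : K) ^ a) • (1 : Module.End K X.H)) ^ k) x := by
    intro k
    induction k with
    | zero => intro x; simp
    | succ k ih =>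
      intro x
      rw [pow_succ, Module.End.mul_apply, ih, pow_succ, Module.End.mul_apply]
      rfl
  constructor
  · rintro ⟨k, hk⟩
    exact ⟨k, by rw [← key, hk]; rfl⟩
  · rintro ⟨k, hk⟩
    exact ⟨k, Subtype.ext (by rw [key, hk]; rfl)⟩

theorem monodromyWeight [CharZero K] (hq : 1 < q) {d : ℤ}
    (P : PoincareDuality X.gr (X.F ()) X.N (q : K) d)
    (hs : ∀ m r : ℤ, 2 * r ≤ m → X.PhiSurjective 0 m r) :
    MonodromyWeight X.gr (X.F ()) X.N (q : K) := by
  intro i a e hae
  have _ := P.finite i
  have _ := P.finite (2 * d - i)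
  have hq0 : (q : K) ≠ 0 := by
    have : q ≠ 0 := by omega
    exact_mod_cast this
  have h := WMC.bij_of_evalSurj (duality P i) (zpow_inj hq) hq0 (X.Mo_Fr i)
    (X.Mo_Fr (2 * d - i)) (evalSurj hs i) (evalSurj hs (2 * d - i)) e a hae
  constructor
  · rintro x ⟨hx, hx'⟩ hN
    have := h.1 ⟨x, hx⟩ ((coe_mem_gen i a ⟨x, hx⟩).mpr hx') (Subtype.ext (by
      rw [coe_Mo_pow]; exact hN))
    exact congrArg Subtype.val this
  · rintro y ⟨hy, hy'⟩
    obtain ⟨x, hx, hx'⟩ := h.2 ⟨y, hy⟩ ((coe_mem_gen i (a - e) ⟨y, hy⟩).mpr hy')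
    refine ⟨x, ⟨x.2, (coe_mem_gen i a x).mp hx⟩, ?_⟩
    have := congrArg Subtype.val hx'
    rwa [coe_Mo_pow] at this

lemma inj_of_monodromyWeight (h : MonodromyWeight X.gr (X.F ()) X.N (q : K)) :
    ∀ (k : ℕ) (j s : ℤ), (k : ℤ) ≤ 2 * s - j → ∀ x ∈ X.tate j s, (X.N ^ k) x = 0 → x = 0 := by
  intro k j s hk x hx hN
  obtain ⟨e, he⟩ : ∃ e : ℕ, 2 * s - j = (k : ℤ) + e := by
    refine ⟨(2 * s - j - k).toNat, ?_⟩
    rw [Int.toNat_of_nonneg (by linarith)]; ring
  refine (h j s (k + e) (by push_cast; linarith)).1 x ⟨hx.1, ?_⟩ ?_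
  · rw [SetLike.mem_coe, Module.End.mem_maxGenEigenspace]
    refine ⟨1, ?_⟩
    have := hx.2 ()
    rw [pow_one, LinearMap.sub_apply, LinearMap.smul_apply, Module.End.one_apply, this]
    exact sub_self _
  · rw [add_comm, pow_add, Module.End.mul_apply, hN, map_zero]

end LogVariety

end Pool.Agent.R277.LT
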