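import Pool.Agent.R277.LT.Crit
import Pool.Agent.R277.LT.Weight

/-!
# Twisting with abelian varieties: from the eigenvalues `q ^ a` to all eigenvalues
-/

set_option autoImplicit false

namespace Pool.Agent.R277.LT.Tw

universe u v w

open Pool.Agent.R277.LT Pool.Agent.R277.LT.Crit

/-- The abelian varieties over the field with `q` elements and the eigenvalues of Frobenius on their
cohomology. -/
structure AbelianVarieties (K : Type u) [Field K] (q : ℕ) where
  /-- the abelian varieties over the field with `q` elements -/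
  Obj : Type
  /-- a basis of `H^*(A)` of homogeneous eigenvectors of the (semisimple) Frobenius -/
  B : Obj → Type
  finite : ∀ A, Finite (B A)
  /-- the degree of a basis vector -/
  deg : ∀ A, B A → ℤ
  /-- the eigenvalue -/
  eig : ∀ A, B A → K
  /-- Weil: the eigenvalues on `H^j(A)` have weight `j` -/
  weil : ∀ (A : Obj) (b : B A), IsWeilNumber q (deg A b) (eig A b)
  /-- duality: with `β` also `q / β` is an eigenvalue on `H^1(A)` -/
  dual : ∀ (A : Obj) (b : B A), deg A b = 1 →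
    ∃ b' : B A, deg A b' = 1 ∧ eig A b' = (q : K) / eig A b
  /-- Honda and Tate: each algebraic integer which is a `q`-Weil number of weight `1` occurs -/
  honda_tate : ∀ β : K, IsIntegral ℤ β → IsWeilNumber q 1 β →
    ∃ (A : Obj) (b : B A), deg A b = 1 ∧ eig A b = β
  /-- the basis vector `b ⊗ ... ⊗ b` on `A ^ n` -/
  power : ∀ (A : Obj) (b : B A) (n : ℕ),
    ∃ (A' : Obj) (b' : B A'), deg A' b' = n * deg A b ∧ eig A' b' = eig A b ^ n

variable {K : Type u} [Field K] {q : ℕ}

/-- Each integral Weil number becomes a power of `q` after multiplication with an eigenvalue of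
Frobenius on the cohomology of an abelian variety. -/
lemma AbelianVarieties.exists_twist [IsAlgClosed K] [CharZero K] (hq : 1 < q)
    (𝒜 : AbelianVarieties K q) {α : K} {w : ℤ} (hα : IsWeilNumber q w α) (hint : IsIntegral ℤ α) :
    ∃ (A : 𝒜.Obj) (b : 𝒜.B A) (r : ℤ), 𝒜.deg A b = 2 * r - w ∧ 𝒜.eig A b * α = (q : K) ^ r := by
  have hq0 : (q : K) ≠ 0 := by
    have : q ≠ 0 := by omega
    exact_mod_cast this
  have hqr : (0 : ℝ) < q := by exact_mod_cast (by omega : 0 < q)
  obtain ⟨s, n, hn, hns⟩ : ∃ s n : ℕ, 0 < n ∧ (n : ℤ) = w + 2 * s := by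
    refine ⟨w.natAbs + 1, (w + 2 * (w.natAbs + 1 : ℕ)).toNat, ?_, ?_⟩
    · omega
    · omega
  obtain ⟨γ, hγ⟩ := IsAlgClosed.exists_pow_nat_eq ((q : K) ^ s * α) hn
  have hγ0 : γ ≠ 0 := by
    rintro rfl
    rw [zero_pow hn.ne'] at hγ
    exact mul_ne_zero (pow_ne_zero _ hq0) hα.1 hγ.symm
  have hint' : IsIntegral ℤ γ := by
    refine IsIntegral.of_pow hn ?_
    rw [hγ]
    refine IsIntegral.mul (IsIntegral.pow ?_ s) hint
    exact_mod_cast isIntegral_algebraMap (R := ℤ) (x := (q : ℤ)) (A := K)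
  have hW : IsWeilNumber q 1 γ := by
    refine ⟨hγ0, fun ι => ?_⟩
    have h1 : ‖ι γ‖ ^ n = ((q : ℝ) ^ (((1 : ℤ) : ℝ) / 2)) ^ n := by
      rw [← norm_pow, ← map_pow, hγ, map_mul, map_pow, map_natCast, norm_mul, norm_pow,
        Complex.norm_natCast, hα.2 ι, ← Real.rpow_natCast, ← Real.rpow_add hqr,
        ← Real.rpow_natCast, ← Real.rpow_mul hqr.le]
      congr 1
      have : (n : ℝ) = w + 2 * s := by exact_mod_cast hns
      rw [this]
      push_cast
      ring
    exact (pow_left_inj₀ (norm_nonneg _) (Real.rpow_nonneg hqr.le _) hn.ne').mp h1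
  obtain ⟨A, b, hb1, hb⟩ := 𝒜.honda_tate γ hint' hW
  obtain ⟨b', hb1', hb'⟩ := 𝒜.dual A b hb1
  obtain ⟨A', b'', hd, he⟩ := 𝒜.power A b' n
  refine ⟨A', b'', w + s, ?_, ?_⟩
  · rw [hd, hb1', hns]; ring
  · rw [he, hb', hb, div_pow, hγ]
    have hα0 := hα.1
    have e1 : (q : K) ^ (w + (s : ℤ)) = (q : K) ^ n / (q : K) ^ s := by
      rw [← zpow_natCast, ← zpow_natCast, ← zpow_sub₀ hq0, hns]
      congr 1
      ring
    rw [e1]
    field_simp

/-- The cohomology of a log scheme `X`, projective, log smooth and vertical, equidimensional, over a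
standard log point over the field with `q` elements. -/
structure LogScheme (K : Type u) [Field K] (q : ℕ) where
  /-- the cohomology `H^*(X)`, more precisely its direct summand on which the log inertia group acts
  unipotently (everything, if `X` is an SNCL scheme) -/
  H : Type v
  [addCommGroup : AddCommGroup H]
  [module : Module K H]
  /-- the subspaces `H^i(X)` -/
  gr : ℤ → Submodule K H
  /-- the Frobenius -/
  F : H →ₗ[K] H
  /-- the monodromy operator -/
  N : H →ₗ[K] H
  F_mem : ∀ i : ℤ, ∀ x ∈ gr i, F x ∈ gr i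
  N_mem : ∀ i : ℤ, ∀ x ∈ gr i, N x ∈ gr i
  N_F : ∀ x : H, N (F x) = (q : K) • F (N x)
  /-- the dimension of `X` -/
  d : ℤ
  duality : PoincareDuality gr F N (q : K) d
  /-- the eigenvalues of Frobenius are algebraic integers -/
  integral : ∀ (i : ℤ) (α : K), ∀ x ∈ gr i, x ≠ 0 → F x = α • x → IsIntegral ℤ α

attribute [instance] LogScheme.addCommGroup LogScheme.module

namespace LogScheme

variable (X : LogScheme.{u, v} K q)

/-- The monodromy-weight conjecture for `X`: for each Weil number `α` of weight `i + e` the operator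
`N ^ e` is a bijection from the generalized eigenspace of `F` on `H^i(X)` for `α` onto the
generalized eigenspace for `α / q ^ e` (of weight `i - e`). -/
def WeightMonodromy : Prop :=
  ∀ (i : ℤ) (α : K) (e : ℕ), IsWeilNumber q (i + e) α →
    (∀ x ∈ X.gr i ⊓ Module.End.maxGenEigenspace X.F α, (X.N ^ e) x = 0 → x = 0) ∧
    (∀ y ∈ X.gr i ⊓ Module.End.maxGenEigenspace X.F (α / (q : K) ^ e),
      ∃ x ∈ X.gr i ⊓ Module.End.maxGenEigenspace X.F α, (X.N ^ e) x = y)

/-- Frobenius on `H^i(X)`. -/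
def Fr (i : ℤ) : Module.End K (X.gr i) := X.F.restrict fun x hx => X.F_mem i x hx

/-- The monodromy operator on `H^i(X)`. -/
def Mo (i : ℤ) : Module.End K (X.gr i) := X.N.restrict fun x hx => X.N_mem i x hx

variable {X}

lemma coe_Fr (i : ℤ) (x : X.gr i) : ((X.Fr i x : X.gr i) : X.H) = X.F x := rfl

lemma coe_Mo (i : ℤ) (x : X.gr i) : ((X.Mo i x : X.gr i) : X.H) = X.N x := rfl

lemma coe_Mo_pow (i : ℤ) (e : ℕ) (x : X.gr i) :
    (((X.Mo i ^ e) x : X.gr i) : X.H) = (X.N ^ e) x := by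
  induction e generalizing x with
  | zero => simp
  | succ e ih => rw [pow_succ, Module.End.mul_apply, ih, coe_Mo, pow_succ, Module.End.mul_apply]

lemma mem_gen (i : ℤ) (α : K) (x : X.gr i) :
    x ∈ (X.Fr i).maxGenEigenspace α ↔ (x : X.H) ∈ Module.End.maxGenEigenspace X.F α := by
  rw [Module.End.mem_maxGenEigenspace, Module.End.mem_maxGenEigenspace]
  have key : ∀ (k : ℕ) (x : X.gr i),
      ((((X.Fr i - α • (1 : Module.End K (X.gr i))) ^ k) x : X.gr i) : X.H)
        = ((X.F - α • (1 : Module.End K X.H)) ^ k) x := by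
    intro k
    induction k with
    | zero => intro x; simp
    | succ k ih =>
      intro x
      rw [pow_succ, Module.End.mul_apply, ih, pow_succ, Module.End.mul_apply]
      rfl
  constructor
  · rintro ⟨k, hk⟩
    exact ⟨k, by rw [← key, hk]; rfl⟩
  · rintro ⟨k, hk⟩
    exact ⟨k, Subtype.ext (by rw [key, hk]; rfl)⟩

/-- The pair `H^i(X)`, `H^{2 d - i}(X)`. -/
def coh (X : LogScheme.{u, v} K q) (i : ℤ) : LogCohomology.{u, v, v} K q X.d where
  V := X.gr i
  V' := X.gr (2 * X.d - i)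
  fin := X.duality.finite i
  fin' := X.duality.finite (2 * X.d - i)
  F := X.Fr i
  N := X.Mo i
  F' := X.Fr (2 * X.d - i)
  N' := X.Mo (2 * X.d - i)
  N_F x := Subtype.ext (X.N_F x)
  N_F' x := Subtype.ext (X.N_F x)
  pair := (LinearMap.lcomp K K (X.gr (2 * X.d - i)).subtype).comp
    (X.duality.pair.comp (X.gr i).subtype)
  pair_F x y := X.duality.pair_F x y
  pair_N x y := X.duality.pair_N x y
  left x hx := Subtype.ext (X.duality.nondegenerate i x x.2 fun y hy => hx ⟨y, hy⟩)
  right y hy := Subtype.ext (X.duality.nondegenerate' i y y.2 fun x hx => hy ⟨x, hx⟩)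

lemma weightMonodromy_iff : X.WeightMonodromy ↔
    ∀ i : ℤ, Crit.WeightMonodromy (X.Fr i) (X.Mo i) q i := by
  constructor
  · intro h i α e hα
    obtain ⟨h1, h2⟩ := h i α e hα
    refine ⟨fun x hx hN => ?_, fun y hy => ?_⟩
    · refine Subtype.ext (h1 x ⟨x.2, (mem_gen i α x).mp hx⟩ ?_)
      rw [← coe_Mo_pow, hN]; rfl
    · obtain ⟨x, ⟨hx, hx'⟩, hxy⟩ := h2 y ⟨y.2, (mem_gen i _ y).mp hy⟩
      refine ⟨⟨x, hx⟩, (mem_gen i α ⟨x, hx⟩).mpr hx', Subtype.ext ?_⟩
      rw [coe_Mo_pow]; exact hxy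
  · intro h i α e hα
    obtain ⟨h1, h2⟩ := h i α e hα
    constructor
    · rintro x ⟨hx, hx'⟩ hN
      have := h1 ⟨x, hx⟩ ((mem_gen i α ⟨x, hx⟩).mpr hx') (Subtype.ext (by
        rw [coe_Mo_pow]; exact hN))
      exact congrArg Subtype.val this
    · rintro y ⟨hy, hy'⟩
      obtain ⟨x, hx, hxy⟩ := h2 ⟨y, hy⟩ ((mem_gen i _ ⟨y, hy⟩).mpr hy')
      refine ⟨x, ⟨x.2, (mem_gen i α x).mp hx⟩, ?_⟩
      rw [← coe_Mo_pow, hxy]

end LogScheme

end Pool.Agent.R277.LT.Tw
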