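import Pool.Agent.R277.LT.Twist
import Pool.Agent.R277.LT.KLog

/-!
# Vanishing of invariants on `X × E ^ n × A` and the monodromy-weight conjecture for `X`
-/

set_option autoImplicit false

namespace Pool.Agent.R277.LT.Tw

universe u v w

open Pool.Agent.R277.LT Pool.Agent.R277.LT.Crit

variable {K : Type u} [Field K] {q : ℕ}

section linear

/-- Generalized eigenspaces of `a⁻¹ F`. -/
lemma mem_G_smul {V : Type w} [AddCommGroup V] [Module K V] (F : Module.End K V) {a : K}
    (ha : a ≠ 0) (b : ℤ) (x : V) : x ∈ WMC.G (a⁻¹ • F) (q : K) b ↔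
      x ∈ F.maxGenEigenspace (a * (q : K) ^ b) := by
  rw [WMC.mem_G, Module.End.mem_maxGenEigenspace]
  have e2 : WMC.U (a⁻¹ • F) (q : K) b
      = a⁻¹ • (F - (a * (q : K) ^ b) • (1 : Module.End K V)) := by
    unfold WMC.U
    rw [smul_sub, smul_smul, ← mul_assoc, inv_mul_cancel₀ ha, one_mul]
  have e3 : ∀ k : ℕ, (WMC.U (a⁻¹ • F) (q : K) b) ^ k
      = (a⁻¹) ^ k • (F - (a * (q : K) ^ b) • (1 : Module.End K V)) ^ k := by
    intro k
    rw [e2, smul_pow]
  constructor
  · rintro ⟨k, hk⟩
    refine ⟨k, ?_⟩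
    rw [e3, LinearMap.smul_apply] at hk
    rcases smul_eq_zero.mp hk with h1 | h1
    · exact absurd h1 (pow_ne_zero _ (inv_ne_zero ha))
    · exact h1
  · rintro ⟨k, hk⟩
    refine ⟨k, ?_⟩
    rw [e3, LinearMap.smul_apply, hk, smul_zero]

/-- Bijectivity from injectivity in two dual degrees. -/
lemma weight_of_inj [CharZero K] (hq : 1 < q) {d : ℤ}
    (X : LogCohomology.{u, v, w} K q d) {i : ℤ}
    (h : ∀ (α : K) (e : ℕ), IsWeilNumber q (i + e) α →
      ∀ x ∈ X.F.maxGenEigenspace α, (X.N ^ e) x = 0 → x = 0)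
    (h' : ∀ (α : K) (e : ℕ), IsWeilNumber q (2 * d - i + e) α →
      ∀ x ∈ X.F'.maxGenEigenspace α, (X.N' ^ e) x = 0 → x = 0) :
    Crit.WeightMonodromy X.F X.N q i := by
  intro α e hα
  have hq0 : (q : K) ≠ 0 := by
    have : q ≠ 0 := by omega
    exact_mod_cast this
  have hD : WMC.Duality (α⁻¹ • X.F) X.N (α • X.F') X.N' (q : K) d X.pair := by
    refine ⟨fun x y => ?_, X.pair_N, X.left, X.right⟩
    rw [LinearMap.smul_apply, LinearMap.smul_apply, map_smul, map_smul, LinearMap.smul_apply,
      X.pair_F, smul_eq_mul, smul_eq_mul, ← mul_assoc, mul_inv_cancel₀ hα.1, one_mul]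
  have hNF : ∀ x, X.N ((α⁻¹ • X.F) x) = (q : K) • (α⁻¹ • X.F) (X.N x) := by
    intro x
    rw [LinearMap.smul_apply, LinearMap.smul_apply, map_smul, X.N_F, smul_comm]
  have hNF' : ∀ x, X.N' ((α • X.F') x) = (q : K) • (α • X.F') (X.N' x) := by
    intro x
    rw [LinearMap.smul_apply, LinearMap.smul_apply, map_smul, X.N_F', smul_comm]
  have keyV := fun (b : ℤ) (x : X.V) => mem_G_smul (q := q) X.F hα.1 b x
  have keyV' : ∀ (b : ℤ) (x : X.V'), x ∈ WMC.G (α • X.F') (q : K) b ↔
      x ∈ X.F'.maxGenEigenspace (α⁻¹ * (q : K) ^ b) := by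
    intro b x
    have := mem_G_smul (q := q) X.F' (inv_ne_zero hα.1) b x
    rwa [inv_inv] at this
  have b1 := WMC.bij_of_inj (F := α⁻¹ • X.F) (N := X.N) hq0 hNF (a := 0) (e := e) (by
    intro x hx hN
    refine h α e hα x ?_ hN
    have := (keyV 0 x).mp hx
    rwa [zpow_zero, mul_one] at this)
  have b2 := WMC.bij_of_inj (F := α • X.F') (N := X.N') hq0 hNF' (a := d + e) (e := e) (by
    intro x hx hN
    refine h' (α⁻¹ * (q : K) ^ (d + (e : ℤ))) e ?_ x ((keyV' _ x).mp hx) hN
    have := (hα.inv hq).mul_zpow hq (d + e)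
    have e1 : -(i + (e : ℤ)) + 2 * (d + e) = 2 * d - i + e := by ring
    rwa [e1] at this)
  have f1 := hD.finrank_G hq0 0
  have f2 := hD.finrank_G hq0 (0 - (e : ℤ))
  have e1 : d - (0 - (e : ℤ)) = d + e := by ring
  have e2 : d - (0 : ℤ) = d := by ring
  have e3 : d + (e : ℤ) - e = d := by ring
  rw [e2] at f1
  rw [e1] at f2
  rw [e3] at b2
  have hB : WMC.Bij (α⁻¹ • X.F) X.N (q : K) 0 e := by
    refine b1.2 (le_antisymm b1.1 ?_)
    rw [f1, f2]
    exact b2.1
  constructor
  · intro x hx hN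
    refine hB.1 x ((keyV 0 x).mpr ?_) hN
    rwa [zpow_zero, mul_one]
  · intro y hy
    obtain ⟨x, hx, hxy⟩ := hB.2 y ((keyV _ y).mpr (by
      have e4 : α * (q : K) ^ ((0 : ℤ) - e) = α / (q : K) ^ e := by
        rw [zero_sub, zpow_neg, zpow_natCast, div_eq_mul_inv]
      rwa [e4]))
    refine ⟨x, ?_, hxy⟩
    have := (keyV 0 x).mp hx
    rwa [zpow_zero, mul_one] at this

end linear

section words

/-- Counting letters. -/
lemma word_counts (u : Word) : u.length = u.count 0 + u.count 1 + u.count 2 + u.count 3 ∧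
    wordDeg u = (u.count 1 : ℤ) + u.count 2 + 2 * u.count 3 ∧
    wordWt u = (u.count 2 : ℤ) + u.count 3 := by
  induction u with
  | nil => simp [wordDeg, wordWt]
  | cons a u ih =>
    obtain ⟨h1, h2, h3⟩ := ih
    have e2 : wordDeg (a :: u) = letterDeg a + wordDeg u := by simp [wordDeg]
    have e3 : wordWt (a :: u) = letterWt a + wordWt u := by simp [wordWt]
    rw [e2, e3, h2, h3, List.length_cons, h1]
    fin_cases a
    · simp [letterDeg, letterWt]; omega
    · simp [letterDeg, letterWt]; omega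
    · simp [letterDeg, letterWt]; omega
    · simp [letterDeg, letterWt]; omega

lemma count_two_set {w : Word} {i : ℕ} (h : w[i]? = some 1) :
    (w.set i 2).count 2 = w.count 2 + 1 := by
  induction w generalizing i with
  | nil => simp at h
  | cons a w ih =>
    cases i with
    | zero =>
      simp only [List.getElem?_cons_zero, Option.some.injEq] at h
      subst h
      simp
    | succ i =>
      rw [List.getElem?_cons_succ] at h
      have := ih h
      rw [List.set_cons_succ, List.count_cons, List.count_cons]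
      omega

variable {H : Type v} [AddCommGroup H] [Module K H]

/-- The element `∑ ± N ^ k x ⊗ s_k` with `s_k` in `Sym ^ n H^1(E)`. -/
def block (N : H →ₗ[K] H) (x : H) (u : Word) : H :=
  if u.count 1 + u.count 2 = u.length then
    ((-1 : K) ^ (u.count 2) * ((u.count 1).factorial : K)) • (N ^ (u.count 2)) x
  else 0

lemma monodromy_block (N : H →ₗ[K] H) (x : H) (n : ℕ) (hN : (N ^ (n + 1)) x = 0) (u : Word)
    (hu : u.length = n) : monodromy N (block N x) u = 0 := by
  simp only [monodromy, LinearMap.coe_mk, AddHom.coe_mk]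
  by_cases hg : u.count 1 + u.count 2 = u.length
  · obtain ⟨k, hk⟩ : ∃ k, u.count 2 = k := ⟨_, rfl⟩
    obtain ⟨l, hl⟩ : ∃ l, u.count 1 = l := ⟨_, rfl⟩
    have h1 : ∀ i ∈ Finset.range u.length,
        (if u[i]? = some 1 then block N x (u.set i 2) else 0)
        = if u[i]? = some 1 then
            ((-1 : K) ^ (k + 1) * ((l - 1).factorial : K)) • (N ^ (k + 1)) x else 0 := by
      intro i _
      split_ifs with h
      · unfold block
        have c1 := count_set h
        have c2 := count_two_set h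
        rw [if_pos (by rw [List.length_set]; omega)]
        have c1' : (u.set i 2).count 1 = l - 1 := by omega
        rw [c1', c2, hk]
      · rfl
    rw [Finset.sum_congr rfl h1, sum_count, hl]
    unfold block
    rw [if_pos hg, hk, hl, map_smul, ← Module.End.mul_apply, ← pow_succ']
    rcases Nat.eq_zero_or_pos l with h0 | h0
    · have : k = n := by omega
      subst this
      rw [hN]; simp
    · obtain ⟨l, rfl⟩ : ∃ l', l = l' + 1 := ⟨l - 1, by omega⟩
      rw [← Nat.cast_smul_eq_nsmul K, smul_smul, ← add_smul, Nat.add_sub_cancel,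
        Nat.factorial_succ]
      have : (-1 : K) ^ k * (((l + 1) * l.factorial : ℕ) : K)
          + ((l + 1 : ℕ) : K) * ((-1 : K) ^ (k + 1) * (l.factorial : K)) = 0 := by
        push_cast; ring
      rw [this, zero_smul]
  · have h0 : block N x u = 0 := by unfold block; rw [if_neg hg]
    rw [h0, map_zero, zero_add]
    refine Finset.sum_eq_zero fun i _ => ?_
    split_ifs with h
    · unfold block
      have c1 := count_set h
      have c2 := count_two_set h
      rw [if_neg]
      rw [List.length_set]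
      omega
    · rfl

end words

namespace LogScheme

variable (X : LogScheme.{u, v} K q) (𝒜 : AbelianVarieties K q)

/-- `c` is an element of `H^m(X × E ^ n × A)(a)^G`, in Kunneth coordinates: `c u b` is the coefficient
of the basis vector `e_u ⊗ b` of `H^*(E ^ n) ⊗ H^*(A)`. Here `E` is a log Tate curve and `A` an
abelian variety over the base field. -/
def Invariant (n : ℕ) (A : 𝒜.Obj) (m a : ℤ) (c : Word → 𝒜.B A → X.H) : Prop :=
  ∀ u : Word, u.length = n → ∀ b : 𝒜.B A,
    c u b ∈ X.gr (m - wordDeg u - 𝒜.deg A b) ∧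
    𝒜.eig A b • X.F (c u b) = (q : K) ^ (a - wordWt u) • c u b ∧
    monodromy X.N (fun w => c w b) u = 0

/-- `H^m(X × E ^ n × A)(a)^G` vanishes for `m < 2 a`. -/
def Vanishing (n : ℕ) (A : 𝒜.Obj) : Prop :=
  ∀ (m a : ℤ), m < 2 * a → ∀ c : Word → 𝒜.B A → X.H, X.Invariant 𝒜 n A m a c →
    ∀ u : Word, u.length = n → ∀ b : 𝒜.B A, c u b = 0

variable {X 𝒜}

lemma N_pow_F (x : X.H) (k : ℕ) : (X.N ^ k) (X.F x) = (q : K) ^ k • X.F ((X.N ^ k) x) := by
  induction k with
  | zero => simp
  | succ k ih =>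
    rw [pow_succ' X.N, Module.End.mul_apply, ih, map_smul, X.N_F, smul_smul, ← pow_succ,
      Module.End.mul_apply]

lemma N_pow_mem (i : ℤ) (k : ℕ) (x : X.H) (hx : x ∈ X.gr i) : (X.N ^ k) x ∈ X.gr i := by
  induction k with
  | zero => simpa using hx
  | succ k ih => rw [pow_succ', Module.End.mul_apply]; exact X.N_mem i _ ih

/-- The part of `H^{j - deg b}(X) ⊗ b` on which Frobenius is `q ^ s`. -/
def twisted (X : LogScheme.{u, v} K q) (𝒜 : AbelianVarieties K q) (A : 𝒜.Obj) (b : 𝒜.B A)
    (j s : ℤ) : Submodule K X.H where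
  carrier := {x | x ∈ X.gr (j - 𝒜.deg A b) ∧ 𝒜.eig A b • X.F x = (q : K) ^ s • x}
  add_mem' := by
    rintro x y ⟨hx, hx'⟩ ⟨hy, hy'⟩
    exact ⟨add_mem hx hy, by rw [map_add, smul_add, hx', hy', smul_add]⟩
  zero_mem' := ⟨zero_mem _, by simp⟩
  smul_mem' := by
    rintro c x ⟨hx, hx'⟩
    exact ⟨Submodule.smul_mem _ _ hx, by rw [map_smul, smul_comm, hx', smul_comm]⟩

lemma twisted_inj [CharZero K] (hq : 1 < q) (h : X.WeightMonodromy) (A : 𝒜.Obj) (b : 𝒜.B A) :
    ∀ (k : ℕ) (j s : ℤ), (k : ℤ) ≤ 2 * s - j → ∀ x ∈ twisted X 𝒜 A b j s,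
      (X.N ^ k) x = 0 → x = 0 := by
  rintro k j s hk x ⟨hx, hx'⟩ hN
  have hq0 : (q : K) ≠ 0 := by
    have : q ≠ 0 := by omega
    exact_mod_cast this
  have hb0 := (𝒜.weil A b).1
  obtain ⟨e, he⟩ : ∃ e : ℕ, 2 * s - j = (k : ℤ) + e := by
    refine ⟨(2 * s - j - k).toNat, ?_⟩
    rw [Int.toNat_of_nonneg (by linarith)]; ring
  have hα : IsWeilNumber q ((j - 𝒜.deg A b) + ((k + e : ℕ) : ℤ))
      ((𝒜.eig A b)⁻¹ * (q : K) ^ s) := by
    have := ((𝒜.weil A b).inv hq).mul_zpow hq s
    have e1 : -𝒜.deg A b + 2 * s = (j - 𝒜.deg A b) + ((k + e : ℕ) : ℤ) := by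
      push_cast; linarith
    rwa [e1] at this
  have hF : X.F x = ((𝒜.eig A b)⁻¹ * (q : K) ^ s) • x := by
    rw [mul_smul, ← hx', smul_smul, inv_mul_cancel₀ hb0, one_smul]
  refine (h _ _ (k + e) hα).1 x ⟨hx, ?_⟩ ?_
  · rw [SetLike.mem_coe, Module.End.mem_maxGenEigenspace]
    refine ⟨1, ?_⟩
    rw [pow_one, LinearMap.sub_apply, LinearMap.smul_apply, Module.End.one_apply, hF, sub_self]
  · rw [add_comm, pow_add, Module.End.mul_apply, hN, map_zero]

/-- The monodromy-weight conjecture gives the vanishing. -/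
lemma vanishing_of_weight [CharZero K] (hq : 1 < q) (h : X.WeightMonodromy) (n : ℕ) (A : 𝒜.Obj) :
    X.Vanishing 𝒜 n A := by
  intro m a hma c hc u hu b
  refine neg_all (twisted X 𝒜 A b) X.N (twisted_inj hq h A b) n 1 m a
    (by push_cast; linarith) (fun w => c w b) (fun w hw => ?_) (fun w hw => ?_) u hu
  · obtain ⟨h1, h2, -⟩ := hc w hw b
    exact ⟨h1, h2⟩
  · rw [pow_one]
    exact (hc w hw b).2.2

open Classical in
/-- The vanishing gives the injectivity. -/
lemma inj_of_vanishing [IsAlgClosed K] [CharZero K] (hq : 1 < q)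
    (h : ∀ (n : ℕ) (A : 𝒜.Obj), X.Vanishing 𝒜 n A) (i : ℤ) (α : K) (e : ℕ)
    (hα : IsWeilNumber q (i + e) α) (x : X.H) (hx : x ∈ X.gr i)
    (hx' : x ∈ Module.End.maxGenEigenspace X.F α) (hN : (X.N ^ e) x = 0) : x = 0 := by
  have hq0 : (q : K) ≠ 0 := by
    have : q ≠ 0 := by omega
    exact_mod_cast this
  -- eigenvectors
  have key : ∀ y : X.H, y ∈ X.gr i → X.F y = α • y → (X.N ^ e) y = 0 → y = 0 := by
    intro y hy hF hNy
    by_contra hy0
    rcases Nat.eq_zero_or_pos e with he | he
    · subst he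
      exact hy0 (by simpa using hNy)
    obtain ⟨n, rfl⟩ : ∃ n, e = n + 1 := ⟨e - 1, by omega⟩
    obtain ⟨A, b, r, hd, hr⟩ := 𝒜.exists_twist hq hα (X.integral i α y hy hy0 hF)
    have hFN : ∀ k : ℕ, 𝒜.eig A b • X.F ((X.N ^ k) y) = (q : K) ^ (r - k) • (X.N ^ k) y := by
      intro k
      have h1 := N_pow_F y k
      rw [hF, map_smul] at h1
      have h2 : X.F ((X.N ^ k) y) = ((q : K) ^ k)⁻¹ • α • (X.N ^ k) y := by
        rw [h1, smul_smul, inv_mul_cancel₀ (pow_ne_zero _ hq0), one_smul]
      rw [h2, smul_smul, smul_smul, zpow_sub₀ hq0, zpow_natCast, ← hr]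
      congr 1
      field_simp
    have hz := h n A (2 * r - 1) r (by linarith)
      (fun u b' => if b' = b then block X.N y u else 0) (by
        intro u hu b'
        by_cases hb : b' = b
        · subst hb
          simp only [if_true]
          obtain ⟨c1, c2, c3⟩ := word_counts u
          refine ⟨?_, ?_, monodromy_block X.N y n hNy u hu⟩
          · unfold block
            split_ifs with hg
            · refine Submodule.smul_mem _ _ ?_
              have e1 : 2 * r - 1 - wordDeg u - 𝒜.deg A b' = i := by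
                rw [c2, hd]; push_cast; omega
              rw [e1]
              exact N_pow_mem i _ y hy
            · exact zero_mem _
          · unfold block
            split_ifs with hg
            · rw [map_smul, smul_comm, hFN, smul_comm]
              have e1 : r - wordWt u = r - (u.count 2 : ℤ) := by
                rw [c3]; omega
              rw [e1]
            · simp
        · simp only [if_neg hb]
          refine ⟨zero_mem _, by simp, ?_⟩
          have : (fun _ : Word => (0 : X.H)) = 0 := rfl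
          rw [this, map_zero]; rfl) (List.replicate n 1) (by simp) b
    simp only [if_true] at hz
    unfold block at hz
    rw [if_pos (by simp [List.count_replicate])] at hz
    have c2 : (List.replicate n (1 : Fin 4)).count 2 = 0 := by
      simp [List.count_replicate]
    rw [c2, pow_zero, pow_zero, one_mul, Module.End.one_apply] at hz
    rcases smul_eq_zero.mp hz with h1 | h1
    · exact Nat.cast_ne_zero.mpr (Nat.factorial_ne_zero _) h1
    · exact hy0 h1
  -- generalized eigenvectors
  rw [Module.End.mem_maxGenEigenspace] at hx'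
  obtain ⟨k, hk⟩ := hx'
  have desc : ∀ k : ℕ, ∀ x : X.H, x ∈ X.gr i → (X.N ^ e) x = 0 →
      ((X.F - α • (1 : Module.End K X.H)) ^ k) x = 0 → x = 0 := by
    intro k
    induction k with
    | zero => intro x _ _ hk; simpa using hk
    | succ k ih =>
      intro x hx hN hk
      have h1 : (X.F - α • (1 : Module.End K X.H)) x = 0 := by
        refine ih _ ?_ ?_ ?_
        · rw [LinearMap.sub_apply, LinearMap.smul_apply, Module.End.one_apply]
          exact sub_mem (X.F_mem i x hx) (Submodule.smul_mem _ _ hx)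
        · rw [LinearMap.sub_apply, LinearMap.smul_apply, Module.End.one_apply, map_sub, map_smul,
            N_pow_F, hN]
          simp
        · rw [← Module.End.mul_apply, ← pow_succ]
          exact hk
      refine key x hx ?_ hN
      rw [LinearMap.sub_apply, LinearMap.smul_apply, Module.End.one_apply] at h1
      exact sub_eq_zero.mp h1
  exact desc k x hx hN hk

/-- **The monodromy-weight conjecture for `X` is the vanishing of the invariants on the products
`X × E ^ n × A`.** -/
theorem weightMonodromy_iff_vanishing [IsAlgClosed K] [CharZero K] (hq : 1 < q) :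
    X.WeightMonodromy ↔ ∀ (n : ℕ) (A : 𝒜.Obj), X.Vanishing 𝒜 n A := by
  refine ⟨fun h n A => vanishing_of_weight hq h n A, fun h => ?_⟩
  rw [weightMonodromy_iff]
  intro i
  have hinj : ∀ (i : ℤ) (α : K) (e : ℕ), IsWeilNumber q (i + e) α →
      ∀ x ∈ (X.Fr i).maxGenEigenspace α, ((X.Mo i) ^ e) x = 0 → x = 0 := by
    intro i α e hα x hx hN
    refine Subtype.ext (inj_of_vanishing hq h i α e hα x x.2 ((mem_gen i α x).mp hx) ?_)
    rw [← coe_Mo_pow, hN]; rfl
  exact weight_of_inj hq (X.coh i) (hinj i) (hinj (2 * X.d - i))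

end LogScheme

end Pool.Agent.R277.LT.Tw
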