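import Pool.Agent.R277.LT.Geom

/-!
# Log smooth varieties over a standard log point: the data that are used
-/

set_option autoImplicit false

namespace Pool.Agent.R277.LT

universe u v

/-- The `ℓ`-adic cohomology of an object `X` of `𝔖` together with the classes of the elements of
`K_{0,lim}` on the products `X × E ^ n`. Here `K` is the coefficient field, `Γ` is the Galois group of
the base field, embedded in the log fundamental group `G` by the choice of a compatible system of
roots of the section `q` of `M_s` defining `E` (or, for a finite base field, a single element, the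
geometric Frobenius), and `χ g` is the scalar by which `g` acts on `K(-1)`. -/
structure LogVariety (K : Type u) [Field K] (Γ : Type) (χ : Γ → K) where
  /-- the cohomology `H^*(X)`, more precisely its direct summand on which the log inertia group acts
  unipotently (the other summand contributes nothing to any space of invariants below) -/
  H : Type v
  [addCommGroup : AddCommGroup H]
  [module : Module K H]
  /-- the subspaces `H^i(X)` -/
  gr : ℤ → Submodule K H
  /-- the action of `Γ` -/
  F : Γ → H →ₗ[K] H
  /-- the monodromy operator, i.e. the logarithm of the action of a generator of the `ℓ`-part of the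
  log inertia group -/
  N : H →ₗ[K] H
  F_mem : ∀ (g : Γ) (i : ℤ), ∀ x ∈ gr i, F g x ∈ gr i
  N_mem : ∀ i : ℤ, ∀ x ∈ gr i, N x ∈ gr i
  N_F : ∀ (g : Γ) (x : H), N (F g x) = χ g • F g (N x)
  /-- the classes on the products `X × E ^ n` -/
  classes : AlgClasses (eig gr F χ) N

attribute [instance] LogVariety.addCommGroup LogVariety.module

namespace LogVariety

variable {K : Type u} [Field K] {Γ : Type} {χ : Γ → K} (X : LogVariety.{u, v} K Γ χ)

/-- `H^j(X)(s)^Γ`: the part of `H^j(X)` on which each `g` acts by `χ g ^ s`. -/
abbrev tate (j s : ℤ) : Submodule K X.H := eig X.gr X.F χ j s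

/-- `c` is an element of `H^m(X × E ^ n)(r)^G`, in Kunneth coordinates. -/
abbrev Invariant (n : ℕ) (m r : ℤ) (c : Word → X.H) : Prop := IsInv X.tate X.N n m r c

/-- The map `φ` of `X × E ^ n` for `m, r` is surjective. -/
abbrev PhiSurjective (n : ℕ) (m r : ℤ) : Prop := X.classes.PhiSurjective n m r

/-- `X` is a smooth projective variety `Y` (with the log structure of the base), satisfying the Tate
conjecture: there is no monodromy, `H^j(Y)(s)^Γ` vanishes for `j ≠ 2 s` (Deligne), and each element
of `H^{2 s}(Y)(s)^Γ` is algebraic. -/
structure IsSmoothWithTate : Prop where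
  monodromy_zero : X.N = 0
  weights : ∀ j s : ℤ, j ≠ 2 * s → X.tate j s = ⊥
  tate_conj : ∀ s : ℤ, ∀ x ∈ X.tate (2 * s) s, ∃ z ∈ X.classes.alg 0 s, z [] = x

variable {X}

lemma IsSmoothWithTate.inj (h : X.IsSmoothWithTate) :
    ∀ (k : ℕ) (j s : ℤ), (k : ℤ) ≤ 2 * s - j → ∀ x ∈ X.tate j s, (X.N ^ k) x = 0 → x = 0 := by
  intro k j s hk x hx hN
  rcases Nat.eq_zero_or_pos k with h0 | h0
  · subst h0; simpa using hN
  · have : j ≠ 2 * s := by
      intro h; subst h
      have : (0 : ℤ) < k := by exact_mod_cast h0
      linarith
    rw [h.weights j s this] at hx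
    simpa using hx

lemma IsSmoothWithTate.phi (h : X.IsSmoothWithTate) : ∀ m r : ℤ, 2 * r ≤ m →
    X.PhiSurjective 0 m r := by
  intro m r _ t ht c hc
  have hc0 : c [] ∈ X.tate m r := by
    have := (hc [] rfl).1
    simpa [wordDeg, wordWt] using this
  rcases Nat.eq_zero_or_pos t with h0 | h0
  · subst h0
    have hm : m = 2 * r := by simpa using ht
    subst hm
    obtain ⟨z, hz, hz'⟩ := h.tate_conj r _ hc0
    refine ⟨z, ?_, ?_⟩
    · have e : 2 * r - r = r := by ring
      rw [e]; exact hz
    · intro u hu
      have : u = [] := List.length_eq_zero_iff.mp hu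
      subst this
      simpa using hz'
  · have hne : m ≠ 2 * r := by
      intro h; subst h
      have : (0 : ℤ) < t := by exact_mod_cast h0
      linarith
    rw [h.weights m r hne] at hc0
    refine ⟨0, zero_mem _, ?_⟩
    intro u hu
    have : u = [] := List.length_eq_zero_iff.mp hu
    subst this
    simpa using (by simpa using hc0 : c [] = 0).symm

end LogVariety

end Pool.Agent.R277.LT
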